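import Mathlib

/-!
# A finite form of Grothendieck's inequality, with the factorisation it implies
-/

set_option autoImplicit false

open Finset

namespace Pool.Agent.Helper47.Grothendieck

/-! ### Khintchine: second and fourth moments of sign sums -/

/-- the sign attached to a boolean -/
def sg (b : Bool) : ℂ := if b then 1 else -1

/-- the sign sum with coefficients `u` -/
noncomputable def X {d : ℕ} (u : Fin d → ℂ) (ω : Fin d → Bool) : ℂ := ∑ l, sg (ω l) * u l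

lemma sum_cons {M : Type*} [AddCommMonoid M] {d : ℕ} (F : (Fin (d + 1) → Bool) → M) :
    ∑ ω, F ω = ∑ ω : Fin d → Bool, (F (Fin.cons true ω) + F (Fin.cons false ω)) := by
  rw [← (Fin.consEquiv (fun _ : Fin (d + 1) => Bool)).sum_comp, Fintype.sum_prod_type_right]
  refine sum_congr rfl (fun ω _ => ?_)
  rw [Fintype.sum_bool]
  rfl

lemma X_cons {d : ℕ} (u : Fin (d + 1) → ℂ) (b : Bool) (ω : Fin d → Bool) :
    X u (Fin.cons b ω) = sg b * u 0 + X (fun l => u l.succ) ω := by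
  simp [X, Fin.sum_univ_succ]

lemma E2 : ∀ (d : ℕ) (u v : Fin d → ℂ),
    ∑ ω : Fin d → Bool, X u ω * X v ω = 2 ^ d * ∑ l, u l * v l := by
  intro d
  induction d with
  | zero => intro u v; simp [X]
  | succ d ih =>
    intro u v
    rw [sum_cons]
    have h1 : ∀ ω : Fin d → Bool, X u (Fin.cons true ω) * X v (Fin.cons true ω) +
        X u (Fin.cons false ω) * X v (Fin.cons false ω) =
        2 * (u 0 * v 0) + 2 * (X (fun l => u l.succ) ω * X (fun l => v l.succ) ω) := by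
      intro ω
      rw [X_cons, X_cons, X_cons, X_cons]
      simp only [sg]
      norm_num
      ring
    rw [sum_congr rfl (fun ω _ => h1 ω), sum_add_distrib, ← mul_sum, ← mul_sum, ← mul_sum, ih,
      Fin.sum_univ_succ]
    simp
    ring

lemma norm_pair (x c : ℂ) : ‖x + c‖ ^ 2 + ‖x - c‖ ^ 2 = 2 * ‖x‖ ^ 2 + 2 * ‖c‖ ^ 2 := by
  have := parallelogram_law_with_norm ℝ x c
  nlinarith [this]

lemma E2n : ∀ (d : ℕ) (u : Fin d → ℂ),
    ∑ ω : Fin d → Bool, ‖X u ω‖ ^ 2 = 2 ^ d * ∑ l, ‖u l‖ ^ 2 := by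
  intro d
  induction d with
  | zero => intro u; simp [X]
  | succ d ih =>
    intro u
    rw [sum_cons]
    have h1 : ∀ ω : Fin d → Bool, ‖X u (Fin.cons true ω)‖ ^ 2 + ‖X u (Fin.cons false ω)‖ ^ 2 =
        2 * ‖u 0‖ ^ 2 + 2 * ‖X (fun l => u l.succ) ω‖ ^ 2 := by
      intro ω
      rw [X_cons, X_cons]
      simp only [sg, if_true, one_mul, Bool.false_eq_true, if_false, neg_mul]
      have := norm_pair (X (fun l => u l.succ) ω) (u 0)
      rw [add_comm (u 0), add_comm (-(u 0)), ← sub_eq_add_neg]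
      linarith
    rw [sum_congr rfl (fun ω _ => h1 ω), sum_add_distrib, ← mul_sum, ← mul_sum, ih,
      Fin.sum_univ_succ]
    simp
    ring

lemma four_pair (x c : ℂ) :
    ‖x + c‖ ^ 4 + ‖x - c‖ ^ 4 ≤ 2 * ‖x‖ ^ 4 + 2 * ‖c‖ ^ 4 + 12 * ‖x‖ ^ 2 * ‖c‖ ^ 2 := by
  have h1 : ‖x + c‖ ^ 2 = ‖x‖ ^ 2 + ‖c‖ ^ 2 + 2 * (x * (starRingEnd ℂ) c).re := by
    rw [← Complex.normSq_eq_norm_sq, ← Complex.normSq_eq_norm_sq, ← Complex.normSq_eq_norm_sq,
      Complex.normSq_add]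
  have h2 : ‖x - c‖ ^ 2 = ‖x‖ ^ 2 + ‖c‖ ^ 2 - 2 * (x * (starRingEnd ℂ) c).re := by
    rw [← Complex.normSq_eq_norm_sq, ← Complex.normSq_eq_norm_sq, ← Complex.normSq_eq_norm_sq,
      Complex.normSq_sub]
  have h3 : |(x * (starRingEnd ℂ) c).re| ≤ ‖x‖ * ‖c‖ := by
    refine (Complex.abs_re_le_norm _).trans (le_of_eq ?_)
    rw [norm_mul, RCLike.norm_conj]
  have h4 : (x * (starRingEnd ℂ) c).re ^ 2 ≤ (‖x‖ * ‖c‖) ^ 2 := by
    rw [← sq_abs]
    exact pow_le_pow_left₀ (abs_nonneg _) h3 2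
  have e1 : ‖x + c‖ ^ 4 = (‖x + c‖ ^ 2) ^ 2 := by ring
  have e2 : ‖x - c‖ ^ 4 = (‖x - c‖ ^ 2) ^ 2 := by ring
  rw [e1, e2, h1, h2]
  nlinarith [h4]

lemma E4 : ∀ (d : ℕ) (u : Fin d → ℂ),
    ∑ ω : Fin d → Bool, ‖X u ω‖ ^ 4 ≤ 2 ^ d * (3 * (∑ l, ‖u l‖ ^ 2) ^ 2) := by
  intro d
  induction d with
  | zero => intro u; simp [X]
  | succ d ih =>
    intro u
    rw [sum_cons]
    have h1 : ∀ ω : Fin d → Bool, ‖X u (Fin.cons true ω)‖ ^ 4 + ‖X u (Fin.cons false ω)‖ ^ 4 ≤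
        2 * ‖X (fun l => u l.succ) ω‖ ^ 4 + 2 * ‖u 0‖ ^ 4 +
          (12 * ‖u 0‖ ^ 2) * ‖X (fun l => u l.succ) ω‖ ^ 2 := by
      intro ω
      rw [X_cons, X_cons]
      simp only [sg, if_true, one_mul, Bool.false_eq_true, if_false, neg_mul]
      have := four_pair (X (fun l => u l.succ) ω) (u 0)
      rw [add_comm (u 0), add_comm (-(u 0)), ← sub_eq_add_neg]
      linarith
    refine (sum_le_sum (fun ω _ => h1 ω)).trans ?_
    rw [sum_add_distrib, sum_add_distrib, ← mul_sum, ← mul_sum, ← mul_sum, E2n]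
    rw [Fin.sum_univ_succ]
    have h2 := ih (fun l => u l.succ)
    set s := ∑ l : Fin d, ‖u l.succ‖ ^ 2 with hs
    have hs0 : 0 ≤ s := sum_nonneg (fun _ _ => by positivity)
    have hc : ∑ _ω : Fin d → Bool, ‖u 0‖ ^ 4 = 2 ^ d * ‖u 0‖ ^ 4 := by
      simp
    rw [hc]
    have h3 : (2 : ℝ) ^ (d + 1) = 2 * 2 ^ d := by ring
    rw [h3]
    have h4 : (0 : ℝ) ≤ 2 ^ d * ‖u 0‖ ^ 4 := by positivity
    nlinarith [h2, h4]

/-! ### Bilinear and Hilbertian bounds -/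

section

variable {I J : Type} [Fintype I] [Fintype J]

/-- `A` bounds the bilinear form with matrix `a` on unimodular-bounded vectors. -/
def BB (a : I → J → ℂ) (A : ℝ) : Prop :=
  ∀ (s : I → ℂ) (t : J → ℂ), (∀ i, ‖s i‖ ≤ 1) → (∀ j, ‖t j‖ ≤ 1) →
    ‖∑ i, ∑ j, a i j * s i * t j‖ ≤ A

/-- `K` bounds the form with matrix `a` on the unit ball of finite dimensional Hilbert spaces. -/
def HB (a : I → J → ℂ) (K : ℝ) : Prop :=
  ∀ (L : Type) [Fintype L] (u : I → L → ℂ) (v : J → L → ℂ),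
    (∀ i, ∑ l, ‖u i l‖ ^ 2 ≤ 1) → (∀ j, ∑ l, ‖v j l‖ ^ 2 ≤ 1) →
    ‖∑ i, ∑ j, a i j * ∑ l, u i l * v j l‖ ≤ K

lemma BB.nonneg {a : I → J → ℂ} {A : ℝ} (h : BB a A) : 0 ≤ A := by
  have := h (fun _ => 0) (fun _ => 0) (by simp) (by simp)
  simpa using this

lemma HB.nonneg {a : I → J → ℂ} {A : ℝ} (h : HB a A) : 0 ≤ A := by
  have := h PUnit (fun _ _ => 0) (fun _ _ => 0) (by simp) (by simp)
  simpa using this

lemma HB.scale {a : I → J → ℂ} {K : ℝ} (h : HB a K) (L : Type) [Fintype L] (u : I → L → ℂ)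
    (v : J → L → ℂ) (α β : ℝ) (hα : 0 < α) (hβ : 0 < β)
    (hu : ∀ i, ∑ l, ‖u i l‖ ^ 2 ≤ α ^ 2) (hv : ∀ j, ∑ l, ‖v j l‖ ^ 2 ≤ β ^ 2) :
    ‖∑ i, ∑ j, a i j * ∑ l, u i l * v j l‖ ≤ K * α * β := by
  have h1 := h L (fun i l => ((α⁻¹ : ℝ) : ℂ) * u i l) (fun j l => ((β⁻¹ : ℝ) : ℂ) * v j l)
    (fun i => by
      have e : ∀ l, ‖((α⁻¹ : ℝ) : ℂ) * u i l‖ ^ 2 = (α⁻¹) ^ 2 * ‖u i l‖ ^ 2 := fun l => by
        rw [norm_mul, mul_pow, Complex.norm_real, Real.norm_eq_abs, sq_abs]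
      rw [sum_congr rfl (fun l _ => e l), ← mul_sum]
      calc (α⁻¹) ^ 2 * ∑ l, ‖u i l‖ ^ 2 ≤ (α⁻¹) ^ 2 * α ^ 2 := by
            gcongr; exact hu i
        _ = 1 := by field_simp)
    (fun j => by
      have e : ∀ l, ‖((β⁻¹ : ℝ) : ℂ) * v j l‖ ^ 2 = (β⁻¹) ^ 2 * ‖v j l‖ ^ 2 := fun l => by
        rw [norm_mul, mul_pow, Complex.norm_real, Real.norm_eq_abs, sq_abs]
      rw [sum_congr rfl (fun l _ => e l), ← mul_sum]
      calc (β⁻¹) ^ 2 * ∑ l, ‖v j l‖ ^ 2 ≤ (β⁻¹) ^ 2 * β ^ 2 := by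
            gcongr; exact hv j
        _ = 1 := by field_simp)
  have e : ∑ i, ∑ j, a i j * ∑ l, u i l * v j l = ((α * β : ℝ) : ℂ) *
      ∑ i, ∑ j, a i j * ∑ l, (((α⁻¹ : ℝ) : ℂ) * u i l) * (((β⁻¹ : ℝ) : ℂ) * v j l) := by
    rw [mul_sum]
    refine sum_congr rfl (fun i _ => ?_)
    rw [mul_sum]
    refine sum_congr rfl (fun j _ => ?_)
    rw [mul_sum, mul_sum, mul_sum]
    refine sum_congr rfl (fun l _ => ?_)
    have h2 : (α : ℂ) ≠ 0 := by exact_mod_cast hα.ne'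
    have h3 : (β : ℂ) ≠ 0 := by exact_mod_cast hβ.ne'
    push_cast
    field_simp
  rw [e, norm_mul, Complex.norm_real, Real.norm_eq_abs, abs_of_pos (by positivity)]
  calc α * β * _ ≤ α * β * K := by gcongr
    _ = K * α * β := by ring

lemma HB_trivial (a : I → J → ℂ) : HB a (∑ i, ∑ j, ‖a i j‖) := by
  intro L _ u v hu hv
  refine (norm_sum_le _ _).trans (sum_le_sum (fun i _ => ?_))
  refine (norm_sum_le _ _).trans (sum_le_sum (fun j _ => ?_))
  rw [norm_mul]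
  have h1 : ‖∑ l, u i l * v j l‖ ≤ 1 := by
    refine (norm_sum_le _ _).trans ?_
    have h2 : ∀ l, ‖u i l * v j l‖ ≤ (‖u i l‖ ^ 2 + ‖v j l‖ ^ 2) / 2 := fun l => by
      rw [norm_mul]
      nlinarith [sq_nonneg (‖u i l‖ - ‖v j l‖)]
    refine (sum_le_sum (fun l _ => h2 l)).trans ?_
    rw [← sum_div, sum_add_distrib]
    linarith [hu i, hv j]
  calc ‖a i j‖ * _ ≤ ‖a i j‖ * 1 := by gcongr
    _ = ‖a i j‖ := mul_one _

/-- truncation -/
noncomputable def tr (z : ℂ) : ℂ := if ‖z‖ ^ 2 ≤ 48 then z else 0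

lemma tr_norm (z : ℂ) : ‖tr z‖ ≤ Real.sqrt 48 := by
  unfold tr
  split_ifs with h
  · exact Real.le_sqrt_of_sq_le h
  · simp

lemma tr_norm' (z : ℂ) : ‖tr z‖ ^ 2 ≤ ‖z‖ ^ 2 := by
  unfold tr
  split_ifs with h
  · exact le_rfl
  · simp

lemma tr_rest (z : ℂ) : ‖z - tr z‖ ^ 2 ≤ ‖z‖ ^ 4 / 48 := by
  unfold tr
  split_ifs with h
  · simp; positivity
  · rw [sub_zero]
    push Not at h
    have : ‖z‖ ^ 4 = ‖z‖ ^ 2 * ‖z‖ ^ 2 := by ring
    rw [this]
    nlinarith [sq_nonneg ‖z‖]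

lemma HB_step {a : I → J → ℂ} {A K : ℝ} (hA : BB a A) (hK : HB a K) :
    HB a (48 * A + K / 2) := by
  intro L _ u' v' hu' hv'
  -- transport to `Fin d`
  set d := Fintype.card L with hd
  set e := Fintype.equivFin L with he
  set u : I → Fin d → ℂ := fun i l => u' i (e.symm l) with hu_def
  set v : J → Fin d → ℂ := fun j l => v' j (e.symm l) with hv_def
  have hu : ∀ i, ∑ l, ‖u i l‖ ^ 2 ≤ 1 := fun i => by
    rw [hu_def]
    simp only
    rw [Equiv.sum_comp e.symm (fun l => ‖u' i l‖ ^ 2)]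
    exact hu' i
  have hv : ∀ j, ∑ l, ‖v j l‖ ^ 2 ≤ 1 := fun j => by
    rw [hv_def]
    simp only
    rw [Equiv.sum_comp e.symm (fun l => ‖v' j l‖ ^ 2)]
    exact hv' j
  have huv : ∀ i j, ∑ l, u' i l * v' j l = ∑ l, u i l * v j l := fun i j => by
    rw [hu_def, hv_def]
    simp only
    rw [Equiv.sum_comp e.symm (fun l => u' i l * v' j l)]
  simp only [huv]
  set n : ℝ := 2 ^ d with hn
  have hnpos : 0 < n := by positivity
  set r : ℝ := Real.sqrt n with hr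
  have hrpos : 0 < r := Real.sqrt_pos.mpr hnpos
  have hr2 : r ^ 2 = n := Real.sq_sqrt hnpos.le
  have hrC : (r : ℂ) ^ 2 = (n : ℂ) := by rw [← hr2]; push_cast; rfl
  have hrne : (r : ℂ) ≠ 0 := by exact_mod_cast hrpos.ne'
  have hnC : (n : ℂ) = 2 ^ d := by rw [hn]; push_cast; rfl
  have hnne : (n : ℂ) ≠ 0 := by exact_mod_cast hnpos.ne'
  -- the three parts
  have hsplit : ∑ i, ∑ j, a i j * ∑ l, u i l * v j l =
      (n : ℂ)⁻¹ * (∑ ω : Fin d → Bool, ∑ i, ∑ j, a i j * tr (X (u i) ω) * tr (X (v j) ω)) +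
      (∑ i, ∑ j, a i j * ∑ ω : Fin d → Bool, ((r : ℂ)⁻¹ * (X (u i) ω - tr (X (u i) ω))) *
        ((r : ℂ)⁻¹ * tr (X (v j) ω))) +
      (∑ i, ∑ j, a i j * ∑ ω : Fin d → Bool, ((r : ℂ)⁻¹ * X (u i) ω) *
        ((r : ℂ)⁻¹ * (X (v j) ω - tr (X (v j) ω)))) := by
    have h1 : (∑ ω : Fin d → Bool, ∑ i, ∑ j, a i j * tr (X (u i) ω) * tr (X (v j) ω)) =
        ∑ i, ∑ j, a i j * ∑ ω : Fin d → Bool, tr (X (u i) ω) * tr (X (v j) ω) := by
      rw [sum_comm]
      refine sum_congr rfl (fun i _ => ?_)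
      rw [sum_comm]
      refine sum_congr rfl (fun j _ => ?_)
      rw [mul_sum]
      refine sum_congr rfl (fun ω _ => ?_)
      ring
    rw [h1, mul_sum, ← sum_add_distrib, ← sum_add_distrib]
    refine sum_congr rfl (fun i _ => ?_)
    rw [mul_sum, ← sum_add_distrib, ← sum_add_distrib]
    refine sum_congr rfl (fun j _ => ?_)
    have h2 : ∑ l, u i l * v j l = (n : ℂ)⁻¹ * ∑ ω : Fin d → Bool, X (u i) ω * X (v j) ω := by
      rw [E2, hnC]
      field_simp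
    rw [h2]
    have h3 : (n : ℂ)⁻¹ = (r : ℂ)⁻¹ * (r : ℂ)⁻¹ := by
      rw [← hrC]; field_simp
    rw [h3]
    have h4 : ∀ (c : ℂ) (f : (Fin d → Bool) → ℂ), c * (a i j * ∑ ω, f ω) = a i j * ∑ ω, c * f ω := by
      intro c f
      rw [← mul_sum]; ring
    rw [h4, ← mul_add, ← mul_add, ← sum_add_distrib, ← sum_add_distrib]
    congr 1
    rw [mul_sum]
    refine sum_congr rfl (fun ω _ => ?_)
    ring
  rw [hsplit]
  -- first part
  have hq : 0 < Real.sqrt 48 := Real.sqrt_pos.mpr (by norm_num)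
  have hq2 : Real.sqrt 48 ^ 2 = 48 := Real.sq_sqrt (by norm_num)
  have p1 : ‖(n : ℂ)⁻¹ * (∑ ω : Fin d → Bool, ∑ i, ∑ j, a i j * tr (X (u i) ω) * tr (X (v j) ω))‖
      ≤ 48 * A := by
    rw [norm_mul, norm_inv, Complex.norm_real, Real.norm_eq_abs, abs_of_pos hnpos]
    have h1 : ∀ ω : Fin d → Bool, ‖∑ i, ∑ j, a i j * tr (X (u i) ω) * tr (X (v j) ω)‖ ≤ 48 * A := by
      intro ω
      set q : ℂ := ((Real.sqrt 48 : ℝ) : ℂ) with hqdef
      have hqne : q ≠ 0 := by rw [hqdef]; exact_mod_cast hq.ne'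
      have hqn : ‖q‖ = Real.sqrt 48 := by
        rw [hqdef, Complex.norm_real, Real.norm_eq_abs, abs_of_pos hq]
      have h2 := hA (fun i => q⁻¹ * tr (X (u i) ω)) (fun j => q⁻¹ * tr (X (v j) ω))
        (fun i => by
          rw [norm_mul, norm_inv, hqn]
          rw [inv_mul_le_iff₀ hq, mul_one]
          exact tr_norm _)
        (fun j => by
          rw [norm_mul, norm_inv, hqn]
          rw [inv_mul_le_iff₀ hq, mul_one]
          exact tr_norm _)
      have h3 : ∑ i, ∑ j, a i j * tr (X (u i) ω) * tr (X (v j) ω) =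
          q ^ 2 * ∑ i, ∑ j, a i j * (q⁻¹ * tr (X (u i) ω)) * (q⁻¹ * tr (X (v j) ω)) := by
        rw [mul_sum]
        refine sum_congr rfl (fun i _ => ?_)
        rw [mul_sum]
        refine sum_congr rfl (fun j _ => ?_)
        field_simp
      rw [h3, norm_mul, norm_pow, hqn, hq2]
      gcongr
    have h2 : ‖∑ ω : Fin d → Bool, ∑ i, ∑ j, a i j * tr (X (u i) ω) * tr (X (v j) ω)‖ ≤
        n * (48 * A) := by
      refine (norm_sum_le _ _).trans ((sum_le_sum (fun ω _ => h1 ω)).trans ?_)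
      simp [hn]
    rw [inv_mul_le_iff₀ hnpos]
    exact h2
  -- norms of the auxiliary vectors
  have nX : ∀ {d : ℕ} (w : Fin d → ℂ), ∑ l, ‖w l‖ ^ 2 ≤ 1 → ∀ r : ℝ, 0 < r → r ^ 2 = 2 ^ d →
      ∑ ω : Fin d → Bool, ‖(r : ℂ)⁻¹ * X w ω‖ ^ 2 ≤ 1 ∧
      ∑ ω : Fin d → Bool, ‖(r : ℂ)⁻¹ * tr (X w ω)‖ ^ 2 ≤ 1 ∧
      ∑ ω : Fin d → Bool, ‖(r : ℂ)⁻¹ * (X w ω - tr (X w ω))‖ ^ 2 ≤ (1 / 4) ^ 2 := by
    intro d w hw r hr hr2
    have hin : ∀ z : ℂ, ‖(r : ℂ)⁻¹ * z‖ ^ 2 = (2 ^ d)⁻¹ * ‖z‖ ^ 2 := by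
      intro z
      rw [norm_mul, mul_pow, norm_inv, Complex.norm_real, Real.norm_eq_abs, abs_of_pos hr,
        inv_pow, hr2]
    simp only [hin, ← mul_sum]
    have hp : (0 : ℝ) < 2 ^ d := by positivity
    refine ⟨?_, ?_, ?_⟩
    · rw [inv_mul_le_iff₀ hp, E2n]
      gcongr
    · rw [inv_mul_le_iff₀ hp]
      refine (sum_le_sum (fun ω _ => tr_norm' _)).trans ?_
      rw [E2n]
      gcongr
    · rw [inv_mul_le_iff₀ hp]
      refine (sum_le_sum (fun ω _ => tr_rest _)).trans ?_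
      rw [← sum_div]
      have h1 := E4 d w
      have h2 : (0 : ℝ) ≤ ∑ l, ‖w l‖ ^ 2 := sum_nonneg (fun _ _ => by positivity)
      have h3 : (∑ l, ‖w l‖ ^ 2) ^ 2 ≤ 1 := by nlinarith
      rw [div_le_iff₀ (by norm_num)]
      refine h1.trans ?_
      calc (2 : ℝ) ^ d * (3 * (∑ l, ‖w l‖ ^ 2) ^ 2) ≤ 2 ^ d * (3 * 1) := by gcongr
        _ = 2 ^ d * (1 / 4) ^ 2 * 48 := by ring
  have p2 := hK.scale (Fin d → Bool) (fun i ω => (r : ℂ)⁻¹ * (X (u i) ω - tr (X (u i) ω)))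
    (fun j ω => (r : ℂ)⁻¹ * tr (X (v j) ω)) (1 / 4) 1 (by norm_num) one_pos
    (fun i => (nX (u i) (hu i) r hrpos (by rw [hr2])).2.2)
    (fun j => by rw [one_pow]; exact (nX (v j) (hv j) r hrpos (by rw [hr2])).2.1)
  have p3 := hK.scale (Fin d → Bool) (fun i ω => (r : ℂ)⁻¹ * X (u i) ω)
    (fun j ω => (r : ℂ)⁻¹ * (X (v j) ω - tr (X (v j) ω))) 1 (1 / 4) one_pos (by norm_num)
    (fun i => by rw [one_pow]; exact (nX (u i) (hu i) r hrpos (by rw [hr2])).1)
    (fun j => (nX (v j) (hv j) r hrpos (by rw [hr2])).2.2)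
  refine (norm_add₃_le).trans ?_
  linarith

/-- **Grothendieck's inequality** (with the constant `96`). -/
theorem grothendieck {a : I → J → ℂ} {A : ℝ} (hA : BB a A) : HB a (96 * A) := by
  set K := ∑ i, ∑ j, ‖a i j‖ with hK
  have h1 : ∀ n : ℕ, HB a (96 * A + K / 2 ^ n) := by
    intro n
    induction n with
    | zero =>
      intro L _ u v hu hv
      have h2 := HB_trivial a L u v hu hv
      have h3 := hA.nonneg
      simp only [pow_zero, div_one]
      linarith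
    | succ n ih =>
      have h2 := HB_step hA ih
      have e : 48 * A + (96 * A + K / 2 ^ n) / 2 = 96 * A + K / 2 ^ (n + 1) := by
        rw [pow_succ]; field_simp; ring
      rwa [e] at h2
  intro L _ u v hu hv
  have h2 : Filter.Tendsto (fun n : ℕ => 96 * A + K / 2 ^ n) Filter.atTop (nhds (96 * A + 0)) := by
    refine tendsto_const_nhds.add ?_
    have h3 : Filter.Tendsto (fun n : ℕ => K * (1 / 2 : ℝ) ^ n) Filter.atTop (nhds (K * 0)) :=
      (tendsto_pow_atTop_nhds_zero_of_lt_one (by norm_num) (by norm_num)).const_mul K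
    rw [mul_zero] at h3
    refine h3.congr (fun n => ?_)
    rw [one_div, inv_pow, div_eq_mul_inv]
  rw [add_zero] at h2
  exact ge_of_tendsto' h2 (fun n => h1 n L u v hu hv)

/-! ### The factorisation implied by Grothendieck's inequality -/

/-- The set used in the separation argument. -/
def sepSet (a : I → J → ℂ) : Set ((I ⊕ J) → ℝ) :=
  {w | ∃ (L : Type) (_ : Fintype L) (u : I → L → ℂ) (v : J → L → ℂ),
    (∀ i, ∑ l, ‖u i l‖ ^ 2 ≤ w (Sum.inl i)) ∧ (∀ j, ∑ l, ‖v j l‖ ^ 2 ≤ w (Sum.inr j)) ∧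
    1 < (∑ i, ∑ j, a i j * ∑ l, u i l * v j l).re}

lemma sepSet_convex (a : I → J → ℂ) : Convex ℝ (sepSet a) := by
  rintro w1 ⟨L1, _, u1, v1, hu1, hv1, h1⟩ w2 ⟨L2, _, u2, v2, hu2, hv2, h2⟩ α β hα hβ hαβ
  have sα : ((Real.sqrt α : ℝ) : ℂ) * ((Real.sqrt α : ℝ) : ℂ) = (α : ℂ) := by
    rw [← Complex.ofReal_mul, Real.mul_self_sqrt hα]
  have sβ : ((Real.sqrt β : ℝ) : ℂ) * ((Real.sqrt β : ℝ) : ℂ) = (β : ℂ) := by
    rw [← Complex.ofReal_mul, Real.mul_self_sqrt hβ]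
  have nα : ∀ z : ℂ, ‖((Real.sqrt α : ℝ) : ℂ) * z‖ ^ 2 = α * ‖z‖ ^ 2 := fun z => by
    rw [norm_mul, mul_pow, Complex.norm_real, Real.norm_eq_abs, sq_abs, Real.sq_sqrt hα]
  have nβ : ∀ z : ℂ, ‖((Real.sqrt β : ℝ) : ℂ) * z‖ ^ 2 = β * ‖z‖ ^ 2 := fun z => by
    rw [norm_mul, mul_pow, Complex.norm_real, Real.norm_eq_abs, sq_abs, Real.sq_sqrt hβ]
  refine ⟨L1 ⊕ L2, inferInstance,
    fun i => Sum.elim (fun l => ((Real.sqrt α : ℝ) : ℂ) * u1 i l)
      (fun l => ((Real.sqrt β : ℝ) : ℂ) * u2 i l),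
    fun j => Sum.elim (fun l => ((Real.sqrt α : ℝ) : ℂ) * v1 j l)
      (fun l => ((Real.sqrt β : ℝ) : ℂ) * v2 j l), fun i => ?_, fun j => ?_, ?_⟩
  · rw [Fintype.sum_sum_type]
    simp only [Sum.elim_inl, Sum.elim_inr, nα, nβ, ← mul_sum, Pi.add_apply, Pi.smul_apply,
      smul_eq_mul]
    exact add_le_add (mul_le_mul_of_nonneg_left (hu1 i) hα) (mul_le_mul_of_nonneg_left (hu2 i) hβ)
  · rw [Fintype.sum_sum_type]
    simp only [Sum.elim_inl, Sum.elim_inr, nα, nβ, ← mul_sum, Pi.add_apply, Pi.smul_apply,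
      smul_eq_mul]
    exact add_le_add (mul_le_mul_of_nonneg_left (hv1 j) hα) (mul_le_mul_of_nonneg_left (hv2 j) hβ)
  · have e : ∑ i, ∑ j, a i j * ∑ l : L1 ⊕ L2,
        Sum.elim (fun l => ((Real.sqrt α : ℝ) : ℂ) * u1 i l)
          (fun l => ((Real.sqrt β : ℝ) : ℂ) * u2 i l) l *
        Sum.elim (fun l => ((Real.sqrt α : ℝ) : ℂ) * v1 j l)
          (fun l => ((Real.sqrt β : ℝ) : ℂ) * v2 j l) l =
        (α : ℂ) * (∑ i, ∑ j, a i j * ∑ l, u1 i l * v1 j l) +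
        (β : ℂ) * (∑ i, ∑ j, a i j * ∑ l, u2 i l * v2 j l) := by
      simp only [mul_sum, ← sum_add_distrib]
      refine sum_congr rfl (fun i _ => sum_congr rfl (fun j _ => ?_))
      rw [Fintype.sum_sum_type]
      simp only [Sum.elim_inl, Sum.elim_inr]
      congr 1
      · refine sum_congr rfl (fun l _ => ?_)
        rw [← sα]; ring
      · refine sum_congr rfl (fun l _ => ?_)
        rw [← sβ]; ring
    simp only [e, Complex.add_re, Complex.re_ofReal_mul]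
    rcases hα.eq_or_lt with h0 | h0
    · have : β = 1 := by linarith
      rw [← h0, this]; linarith
    · nlinarith [mul_lt_mul_of_pos_left h1 h0, mul_le_mul_of_nonneg_left h2.le hβ]

/-- Factorisation: a form bounded on Hilbert spaces is dominated by weighted `ℓ²` norms. -/
theorem factor {a : I → J → ℂ} {K : ℝ} (hK : 0 < K) (h : HB a K) :
    ∃ (μ : I → ℝ) (ν : J → ℝ), (∀ i, 0 ≤ μ i) ∧ (∀ j, 0 ≤ ν j) ∧
      ∑ i, μ i + ∑ j, ν j ≤ K ∧
      ∀ (s : I → ℂ) (t : J → ℂ), ‖∑ i, ∑ j, a i j * s i * t j‖ ≤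
        ∑ i, μ i * ‖s i‖ ^ 2 + ∑ j, ν j * ‖t j‖ ^ 2 := by
  classical
  set O : Set ((I ⊕ J) → ℝ) := {w | ∀ k, w k < 1 / K} with hO
  have hOconv : Convex ℝ O := by
    intro w1 h1 w2 h2 α β hα hβ hαβ k
    simp only [Pi.add_apply, Pi.smul_apply, smul_eq_mul]
    have a1 := h1 k
    have a2 := h2 k
    rcases hα.eq_or_lt with h0 | h0
    · have : β = 1 := by linarith
      rw [← h0, this]; linarith
    · have b1 := mul_lt_mul_of_pos_left a1 h0
      have b2 := mul_le_mul_of_nonneg_left a2.le hβ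
      have b3 : α * (1 / K) + β * (1 / K) = 1 / K := by rw [← add_mul, hαβ, one_mul]
      linarith
  have hOopen : IsOpen O := by
    have : O = Set.pi Set.univ (fun _ : I ⊕ J => Set.Iio (1 / K)) := by
      ext w; simp [hO]
    rw [this]
    exact isOpen_set_pi Set.finite_univ (fun _ _ => isOpen_Iio)
  have hdisj : Disjoint O (sepSet a) := by
    rw [Set.disjoint_left]
    rintro w hw ⟨L, _, u, v, hu, hv, h1⟩
    have hs : (0 : ℝ) < Real.sqrt (1 / K) := Real.sqrt_pos.mpr (by positivity)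
    have hs2 : Real.sqrt (1 / K) ^ 2 = 1 / K := Real.sq_sqrt (by positivity)
    have h2 := h.scale L u v (Real.sqrt (1 / K)) (Real.sqrt (1 / K)) hs hs
      (fun i => by rw [hs2]; exact (hu i).trans (hw _).le)
      (fun j => by rw [hs2]; exact (hv j).trans (hw _).le)
    rw [mul_assoc, ← sq, hs2, mul_one_div_cancel hK.ne'] at h2
    have h3 := (Complex.re_le_norm (∑ i, ∑ j, a i j * ∑ l, u i l * v j l))
    linarith
  obtain ⟨f, c, hf1, hf2⟩ := geometric_hahn_banach_open hOconv hOopen (sepSet_convex a) hdisj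
  -- coordinates of `f`
  set lam : (I ⊕ J) → ℝ := fun k => f (Pi.single k 1) with hlam
  have hf : ∀ w, f w = ∑ k, w k * lam k := by
    intro w
    have : w = ∑ k, w k • Pi.single (M := fun _ => ℝ) k (1 : ℝ) := by
      ext k
      simp [Finset.sum_apply, Pi.single_apply]
    conv_lhs => rw [this]
    simp [map_sum, hlam]
  have hKi : 0 < 1 / K := by positivity
  have hcpos : 0 < c := by
    have := hf1 0 (fun k => by simpa using hK)
    simpa using this
  have hlam0 : ∀ k, 0 ≤ lam k := by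
    intro k
    by_contra hneg
    push Not at hneg
    -- take `w = -t e_k` with `t` large
    have h1 := hf1 (Pi.single k (-(c / (-lam k)))) (fun k' => by
      by_cases hk : k' = k
      · subst hk
        rw [Pi.single_eq_same]
        have : 0 < c / (-lam k') := div_pos hcpos (by linarith)
        linarith
      · rw [Pi.single_eq_of_ne hk]; exact hKi)
    rw [hf, Fintype.sum_eq_single k (fun k' hk' => by rw [Pi.single_eq_of_ne hk', zero_mul])] at h1
    rw [Pi.single_eq_same] at h1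
    have : -(c / (-lam k)) * lam k = c := by
      have hne : lam k ≠ 0 := hneg.ne
      field_simp
    linarith
  have hsum : ∑ k, lam k ≤ c * K := by
    by_contra hcon
    push Not at hcon
    set Λ := ∑ k, lam k with hΛ
    have hΛpos : 0 < Λ := lt_trans (by positivity) hcon
    have h1 := hf1 (fun _ => c / Λ) (fun k => by
      rw [div_lt_div_iff₀ hΛpos hK]
      linarith)
    rw [hf, ← mul_sum, div_mul_cancel₀ _ hΛpos.ne'] at h1
    exact lt_irrefl _ h1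
  have hre : ∀ (s : I → ℂ) (t : J → ℂ), (∑ i, ∑ j, a i j * s i * t j).re ≤
      (∑ i, lam (Sum.inl i) / c * ‖s i‖ ^ 2) + ∑ j, lam (Sum.inr j) / c * ‖t j‖ ^ 2 := by
    intro s t
    by_contra hcon
    push Not at hcon
    set Q := (∑ i, lam (Sum.inl i) / c * ‖s i‖ ^ 2) + ∑ j, lam (Sum.inr j) / c * ‖t j‖ ^ 2 with hQ
    have hQ0 : 0 ≤ Q := add_nonneg
      (sum_nonneg (fun i _ => mul_nonneg (div_nonneg (hlam0 _) hcpos.le) (by positivity)))
      (sum_nonneg (fun j _ => mul_nonneg (div_nonneg (hlam0 _) hcpos.le) (by positivity)))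
    obtain ⟨ρ, hρ1, hρ2⟩ := exists_between hcon
    have hρ : 0 < ρ := lt_of_le_of_lt hQ0 hρ1
    have sρ : 0 < Real.sqrt ρ := Real.sqrt_pos.mpr hρ
    have sρ2 : Real.sqrt ρ ^ 2 = ρ := Real.sq_sqrt hρ.le
    have hn : ∀ z : ℂ, ‖((Real.sqrt ρ : ℝ) : ℂ)⁻¹ * z‖ ^ 2 = ρ⁻¹ * ‖z‖ ^ 2 := fun z => by
      rw [norm_mul, mul_pow, norm_inv, Complex.norm_real, Real.norm_eq_abs, abs_of_pos sρ,
        inv_pow, sρ2]
    have hmem : (fun k => Sum.elim (fun i => ρ⁻¹ * ‖s i‖ ^ 2) (fun j => ρ⁻¹ * ‖t j‖ ^ 2) k) ∈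
        sepSet a := by
      refine ⟨Unit, inferInstance, fun i _ => ((Real.sqrt ρ : ℝ) : ℂ)⁻¹ * s i,
        fun j _ => ((Real.sqrt ρ : ℝ) : ℂ)⁻¹ * t j, fun i => ?_, fun j => ?_, ?_⟩
      · simp only [univ_unique, sum_const, card_singleton, one_smul, Sum.elim_inl]
        exact (hn _).le
      · simp only [univ_unique, sum_const, card_singleton, one_smul, Sum.elim_inr]
        exact (hn _).le
      · have e : ∑ i, ∑ j, a i j * ∑ _l : Unit, (((Real.sqrt ρ : ℝ) : ℂ)⁻¹ * s i) *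
            (((Real.sqrt ρ : ℝ) : ℂ)⁻¹ * t j) = ((ρ⁻¹ : ℝ) : ℂ) * ∑ i, ∑ j, a i j * s i * t j := by
          rw [mul_sum]
          refine sum_congr rfl (fun i _ => ?_)
          rw [mul_sum]
          refine sum_congr rfl (fun j _ => ?_)
          simp only [univ_unique, sum_const, card_singleton, one_smul]
          have h1 : ((ρ⁻¹ : ℝ) : ℂ) = ((Real.sqrt ρ : ℝ) : ℂ)⁻¹ * ((Real.sqrt ρ : ℝ) : ℂ)⁻¹ := by
            rw [← mul_inv, ← Complex.ofReal_mul, Real.mul_self_sqrt hρ.le]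
            push_cast
            rfl
          rw [h1]; ring
        rw [e, Complex.re_ofReal_mul, lt_inv_mul_iff₀ hρ, mul_one]
        exact hρ2
    have h1 := hf2 _ hmem
    rw [hf, Fintype.sum_sum_type] at h1
    simp only [Sum.elim_inl, Sum.elim_inr] at h1
    have h2 : ∑ i, ρ⁻¹ * ‖s i‖ ^ 2 * lam (Sum.inl i) + ∑ j, ρ⁻¹ * ‖t j‖ ^ 2 * lam (Sum.inr j) =
        c * (Q / ρ) := by
      rw [hQ, add_div, mul_add, sum_div, sum_div, mul_sum, mul_sum]
      congr 1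
      · refine sum_congr rfl (fun i _ => ?_)
        field_simp
      · refine sum_congr rfl (fun j _ => ?_)
        field_simp
    rw [h2] at h1
    have h3 : Q / ρ < 1 := by rw [div_lt_one hρ]; exact hρ1
    nlinarith
  refine ⟨fun i => lam (Sum.inl i) / c, fun j => lam (Sum.inr j) / c,
    fun i => div_nonneg (hlam0 _) hcpos.le, fun j => div_nonneg (hlam0 _) hcpos.le, ?_, ?_⟩
  · rw [← sum_div, ← sum_div, ← add_div, ← Fintype.sum_sum_type, div_le_iff₀ hcpos]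
    linarith
  · intro s t
    -- rotate `t` by a phase
    set z := ∑ i, ∑ j, a i j * s i * t j with hz
    obtain ⟨ζ, hζ, hζz⟩ : ∃ ζ : ℂ, ‖ζ‖ = 1 ∧ ζ * z = ‖z‖ := by
      by_cases h0 : z = 0
      · exact ⟨1, by simp, by simp [h0]⟩
      · refine ⟨(starRingEnd ℂ) z / ‖z‖, ?_, ?_⟩
        · rw [norm_div, RCLike.norm_conj, Complex.norm_real, Real.norm_eq_abs, abs_norm]
          exact div_self (norm_ne_zero_iff.mpr h0)
        · have h1 : (‖z‖ : ℂ) ≠ 0 := by exact_mod_cast norm_ne_zero_iff.mpr h0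
          rw [div_mul_eq_mul_div, mul_comm, Complex.mul_conj, Complex.normSq_eq_norm_sq]
          push_cast
          field_simp
    have h1 := hre s (fun j => ζ * t j)
    have h2 : ∑ i, ∑ j, a i j * s i * (ζ * t j) = ζ * z := by
      rw [hz, mul_sum]
      refine sum_congr rfl (fun i _ => ?_)
      rw [mul_sum]
      refine sum_congr rfl (fun j _ => ?_)
      ring
    rw [h2, hζz, Complex.ofReal_re] at h1
    simpa [norm_mul, hζ] using h1

end

/-- **Tensor inequality.** The tensor product of two bounded bilinear forms on `ℓ_∞` is bounded. -/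
theorem tensor {I J I' J' : Type} [Fintype I] [Fintype J] [Fintype I'] [Fintype J']
    {a : I → J → ℂ} {b : I' → J' → ℂ} {A B : ℝ} (hA : BB a A) (hB : BB b B)
    (x : I → I' → ℂ) (y : J → J' → ℂ) (hx : ∀ i i', ‖x i i'‖ ≤ 1) (hy : ∀ j j', ‖y j j'‖ ≤ 1) :
    ‖∑ i, ∑ j, a i j * ∑ i', ∑ j', b i' j' * x i i' * y j j'‖ ≤ 18432 * A * B := by
  have hA0 := hA.nonneg
  have hB0 := hB.nonneg
  -- it suffices to prove it for `B` replaced by larger numbers
  have key : ∀ B' > 0, B ≤ B' → ‖∑ i, ∑ j, a i j * ∑ i', ∑ j', b i' j' * x i i' * y j j'‖ ≤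
      18432 * A * B' := by
    intro B' hB' hBB'
    have hb : BB b B' := fun s t hs ht => (hB s t hs ht).trans hBB'
    set K := 96 * B' with hK
    have hKpos : 0 < K := by positivity
    obtain ⟨μ, ν, hμ, hν, hμν, hdom⟩ := factor hKpos (grothendieck hb)
    have hμ1 : ∑ i, μ i ≤ K := by
      have := sum_nonneg (fun j (_ : j ∈ univ) => hν j); linarith
    have hν1 : ∑ j, ν j ≤ K := by
      have := sum_nonneg (fun j (_ : j ∈ univ) => hμ j); linarith
    set w : I → J' → ℂ := fun i j' => ∑ i', b i' j' * x i i' with hw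
    have hwt : ∀ i (t : J' → ℂ), ‖∑ j', w i j' * t j'‖ ≤ K + ∑ j', ν j' * ‖t j'‖ ^ 2 := by
      intro i t
      have h1 := hdom (x i) t
      have e : ∑ j', w i j' * t j' = ∑ i', ∑ j', b i' j' * x i i' * t j' := by
        rw [sum_comm]
        refine sum_congr rfl (fun j' _ => ?_)
        rw [hw, sum_mul]
      rw [e]
      refine h1.trans ?_
      gcongr
      refine le_trans (sum_le_sum (fun i' _ => ?_)) hμ1
      have h2 : ‖x i i'‖ ^ 2 ≤ 1 := by
        have := hx i i'; have h3 := norm_nonneg (x i i'); nlinarith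
      calc μ i' * ‖x i i'‖ ^ 2 ≤ μ i' * 1 := mul_le_mul_of_nonneg_left h2 (hμ i')
        _ = μ i' := mul_one _
    have hw0 : ∀ i j', ν j' = 0 → w i j' = 0 := by
      intro i j' hj'
      classical
      by_contra hne
      have hpos : 0 < ‖w i j'‖ := norm_pos_iff.mpr hne
      have h1 := hwt i (Pi.single j' (((K + 1) / ‖w i j'‖ : ℝ) : ℂ))
      rw [Fintype.sum_eq_single j' (fun k hk => by rw [Pi.single_eq_of_ne hk, mul_zero]),
        Fintype.sum_eq_single j' (fun k hk => by rw [Pi.single_eq_of_ne hk]; simp),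
        Pi.single_eq_same, hj', zero_mul, add_zero, norm_mul, Complex.norm_real,
        Real.norm_eq_abs, abs_of_pos (by positivity)] at h1
      have : ‖w i j'‖ * ((K + 1) / ‖w i j'‖) = K + 1 := by field_simp
      linarith
    have hW : ∀ i, ∑ j', ‖w i j'‖ ^ 2 / ν j' ≤ 4 * K := by
      intro i
      set W := ∑ j', ‖w i j'‖ ^ 2 / ν j' with hWdef
      have h1 := hwt i (fun j' => ((1 / 2 : ℝ) : ℂ) * ((starRingEnd ℂ) (w i j') / (ν j' : ℂ)))
      have e1 : ∑ j', w i j' * (((1 / 2 : ℝ) : ℂ) * ((starRingEnd ℂ) (w i j') / (ν j' : ℂ))) =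
          ((W / 2 : ℝ) : ℂ) := by
        rw [hWdef]
        push_cast
        rw [sum_div]
        refine sum_congr rfl (fun j' _ => ?_)
        have h3 : w i j' * (starRingEnd ℂ) (w i j') = (‖w i j'‖ : ℂ) ^ 2 := by
          rw [Complex.mul_conj, Complex.normSq_eq_norm_sq]; push_cast; rfl
        rw [← h3]
        ring
      have e2 : ∑ j', ν j' * ‖((1 / 2 : ℝ) : ℂ) * ((starRingEnd ℂ) (w i j') / (ν j' : ℂ))‖ ^ 2 =
          W / 4 := by
        rw [hWdef, sum_div]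
        refine sum_congr rfl (fun j' _ => ?_)
        rw [norm_mul, norm_div, RCLike.norm_conj, Complex.norm_real, Complex.norm_real,
          Real.norm_eq_abs, Real.norm_eq_abs, abs_of_nonneg (hν j'),
          abs_of_pos (by norm_num : (0 : ℝ) < 1 / 2)]
        rcases (hν j').eq_or_lt with h0 | h0
        · rw [← h0]; simp
        · field_simp
          ring
      have hW0 : 0 ≤ W := sum_nonneg (fun j' _ => div_nonneg (by positivity) (hν j'))
      rw [e1, e2, Complex.norm_real, Real.norm_eq_abs, abs_of_nonneg (by linarith)] at h1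
      linarith
    -- the Hilbert space vectors
    have hs4 : 0 < Real.sqrt (4 * K) := Real.sqrt_pos.mpr (by linarith)
    have hs1 : 0 < Real.sqrt K := Real.sqrt_pos.mpr hKpos
    have h1 := (grothendieck hA).scale J' (fun i j' => w i j' / ((Real.sqrt (ν j') : ℝ) : ℂ))
      (fun j j' => ((Real.sqrt (ν j') : ℝ) : ℂ) * y j j') (Real.sqrt (4 * K)) (Real.sqrt K) hs4 hs1
      (fun i => by
        rw [Real.sq_sqrt (by linarith)]
        refine le_trans (le_of_eq (sum_congr rfl (fun j' _ => ?_))) (hW i)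
        rw [norm_div, div_pow, Complex.norm_real, Real.norm_eq_abs, sq_abs,
          Real.sq_sqrt (hν j')])
      (fun j => by
        rw [Real.sq_sqrt hKpos.le]
        refine le_trans (sum_le_sum (fun j' _ => ?_)) hν1
        rw [norm_mul, mul_pow, Complex.norm_real, Real.norm_eq_abs, sq_abs, Real.sq_sqrt (hν j')]
        have h2 : ‖y j j'‖ ^ 2 ≤ 1 := by
          have := hy j j'; have h3 := norm_nonneg (y j j'); nlinarith
        calc ν j' * ‖y j j'‖ ^ 2 ≤ ν j' * 1 := mul_le_mul_of_nonneg_left h2 (hν j')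
          _ = ν j' := mul_one _)
    have e : ∀ i j, ∑ j', w i j' / ((Real.sqrt (ν j') : ℝ) : ℂ) *
        (((Real.sqrt (ν j') : ℝ) : ℂ) * y j j') = ∑ i', ∑ j', b i' j' * x i i' * y j j' := by
      intro i j
      rw [sum_comm]
      refine sum_congr rfl (fun j' _ => ?_)
      rw [← sum_mul]
      change w i j' / ((Real.sqrt (ν j') : ℝ) : ℂ) * (((Real.sqrt (ν j') : ℝ) : ℂ) * y j j') =
        w i j' * y j j'
      rcases (hν j').eq_or_lt with h0 | h0
      · rw [hw0 i j' h0.symm]; simp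
      · have h3 : ((Real.sqrt (ν j') : ℝ) : ℂ) ≠ 0 := by
          exact_mod_cast (Real.sqrt_pos.mpr h0).ne'
        field_simp
    simp only [e] at h1
    have h4 : Real.sqrt (4 * K) * Real.sqrt K = 2 * K := by
      rw [Real.sqrt_mul (by norm_num), mul_assoc, Real.mul_self_sqrt hKpos.le,
        show (4 : ℝ) = 2 ^ 2 by norm_num, Real.sqrt_sq (by norm_num)]
    rw [mul_assoc, h4, hK] at h1
    linarith
  rcases hB0.eq_or_lt with h0 | h0
  · have h1 : Filter.Tendsto (fun n : ℕ => 18432 * A * (1 / ((n : ℝ) + 1))) Filter.atTop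
        (nhds (18432 * A * 0)) :=
      tendsto_one_div_add_atTop_nhds_zero_nat.const_mul _
    rw [← h0]
    exact ge_of_tendsto' h1 (fun n => key _ (by positivity) (by rw [← h0]; positivity))
  · exact key B h0 le_rfl

end Pool.Agent.Helper47.Grothendieck
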