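import Pool.Agent.Helper75.KT.AlgDefs

/-!
# The algebra is AH (piece F6 of MP_0ce5f1_an)
-/

set_option linter.unusedSectionVars false

namespace Pool.Agent.Helper75.KT

open Matrix Filter Topology CPd
open scoped Kronecker ComplexOrder Matrix.Norms.L2Operator

/-- `D` is isomorphic to a finite direct sum of corners `q M_k(C(X)) q`, `X` compact metrizable,
`q` a projection. -/
def IsAHBlock (D : Type) [NonUnitalSemiring D] [StarRing D] [Module ℂ D] : Prop :=
  ∃ (m : ℕ) (k : Fin m → ℕ) (X : Fin m → Type) (_ : ∀ j, TopologicalSpace (X j))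
    (_ : ∀ j, CompactSpace (X j)) (_ : ∀ j, TopologicalSpace.MetrizableSpace (X j))
    (q : ∀ j, Matrix (Fin (k j)) (Fin (k j)) C(X j, ℂ))
    (Φ : D →⋆ₙₐ[ℂ] ∀ j, Matrix (Fin (k j)) (Fin (k j)) C(X j, ℂ)),
    (∀ j, q j * q j = q j ∧ (q j)ᴴ = q j) ∧ Function.Injective Φ ∧
      ∀ M, M ∈ Set.range Φ ↔ ∀ j, q j * M j * q j = M j

/-- `A` is an AH algebra: the closure of an increasing union of unital subalgebras which are finite direct sums of
corners of matrix algebras over commutative C*-algebras. -/
def IsAH (A : Type) [CStarAlgebra A] : Prop :=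
  ∃ D : ℕ → StarSubalgebra ℂ A, Monotone D ∧ Dense (⋃ i, (D i : Set A)) ∧ ∀ i, IsAHBlock (D i)

theorem AlgData.isAH (𝒟 : AlgData) : IsAH 𝒟.A := by
  classical
  refine ⟨𝒟.D, 𝒟.mono, ?_, fun i => ?_⟩
  · rw [Metric.dense_iff]
    intro a ε hε
    obtain ⟨i, d, hd, hlt⟩ := 𝒟.dense a ε hε
    refine ⟨d, ?_, Set.mem_iUnion.2 ⟨i, hd⟩⟩
    rw [Metric.mem_ball, dist_comm, dist_eq_norm]
    exact hlt
  · set e := Fintype.equivFin (KK i) with he
    let Φ : 𝒟.D i →⋆ₙₐ[ℂ]
        ∀ _ : Fin 1, Matrix (Fin (Fintype.card (KK i))) (Fin (Fintype.card (KK i))) C(XX, ℂ) :=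
      { toFun := fun d _ => (𝒟.Ψ i d).submatrix e.symm e.symm
        map_smul' := fun c d => by
          funext _
          simp only [map_smul]
          rfl
        map_zero' := by
          funext _
          simp only [map_zero]
          rfl
        map_add' := fun c d => by
          funext _
          simp only [map_add]
          rfl
        map_mul' := fun c d => by
          funext _
          simp only [map_mul]
          exact (Matrix.submatrix_mul_equiv _ _ _ _ _).symm
        map_star' := fun c => by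
          funext _
          simp only [map_star]
          rfl }
    have hΦ : ∀ d j, Φ d j = (𝒟.Ψ i d).submatrix e.symm e.symm := fun d j => rfl
    have hsub : ∀ M : Matrix (KK i) (KK i) C(XX, ℂ),
        (M.submatrix e.symm e.symm).submatrix e e = M := by
      intro M
      ext1 r s
      simp [Matrix.submatrix_apply]
    have hsub' : ∀ M : Matrix (Fin (Fintype.card (KK i))) (Fin (Fintype.card (KK i))) C(XX, ℂ),
        (M.submatrix e e).submatrix e.symm e.symm = M := by
      intro M
      ext1 r s
      simp [Matrix.submatrix_apply]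
    refine ⟨1, fun _ => Fintype.card (KK i), fun _ => XX, fun _ => inferInstance,
      fun _ => inferInstance, fun _ => inferInstance,
      fun _ => (𝒟.Ψ i 1).submatrix e.symm e.symm, Φ, fun _ => ⟨?_, ?_⟩, ?_, ?_⟩
    · rw [Matrix.submatrix_mul_equiv, ← map_mul, mul_one]
    · rw [Matrix.conjTranspose_submatrix, ← Matrix.star_eq_conjTranspose, ← map_star, star_one]
    · intro c d h
      apply 𝒟.Ψ_inj i
      have h1 := congrFun h 0
      rw [hΦ, hΦ] at h1
      rw [← hsub (𝒟.Ψ i c), ← hsub (𝒟.Ψ i d), h1]
    · intro M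
      constructor
      · rintro ⟨d, rfl⟩ j
        rw [hΦ, Matrix.submatrix_mul_equiv, Matrix.submatrix_mul_equiv, ← map_mul, ← map_mul,
          one_mul, mul_one]
      · intro hM
        have h1 : 𝒟.Ψ i 1 * ((M 0).submatrix e e) * 𝒟.Ψ i 1 = (M 0).submatrix e e := by
          have h2 := congrArg (fun N => Matrix.submatrix N e e) (hM 0)
          simp only at h2
          rw [← Matrix.submatrix_mul_equiv _ _ e e e, ← Matrix.submatrix_mul_equiv _ _ e e e,
            hsub] at h2
          exact h2
        obtain ⟨d, hd⟩ := 𝒟.Ψ_range i _ h1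
        refine ⟨d, ?_⟩
        funext j
        rw [hΦ, hd, hsub', Subsingleton.elim j 0]

end Pool.Agent.Helper75.KT
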