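import Pool.Agent.Helper79.NC.Spec2

/-! Module M9 of MP_4787eb_gt: the closed geodesics over the zero set of the potential. -/

set_option autoImplicit false
set_option maxSynthPendingDepth 3

namespace Pool.Agent.Helper79.NC

open scoped ContDiff Topology
open Set Filter

theorem TubeData.normSq_lt_of_zero (T : TubeData) {z : ℂ} (hz : T.Φ z = 0) :
    Complex.normSq z < T.u1 := by
  by_contra h
  rw [not_lt] at h
  have h1 := T.Φ_eq z (lt_of_lt_of_le T.u01 h)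
  have h2 := T.P_pos _ h
  rw [← h1, hz] at h2
  exact lt_irrefl _ h2

theorem TubeData.norm_lt_one_of_zero (T : TubeData) {z : ℂ} (hz : T.Φ z = 0) : ‖z‖ < 1 := by
  have h1 := T.normSq_lt_of_zero hz
  have h2 := T.u12
  have h3 := T.u22
  have h4 := T.u23
  have h5 := T.u3_lt
  have h6 : Complex.normSq z < 1 := by linarith
  rw [Complex.normSq_eq_norm_sq] at h6
  nlinarith [norm_nonneg z]

theorem TubeData.fderiv_F_of_zero (T : TubeData) {z : ℂ} (hz : T.Φ z = 0) :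
    HasFDerivAt T.F (0 : ℂ →L[ℝ] ℝ) z := by
  have hd : DifferentiableAt ℝ T.Φ z := T.hΦ.contDiffAt.differentiableAt (by simp)
  have hmin : IsLocalMin T.Φ z := by
    refine Filter.Eventually.of_forall fun w => ?_
    rw [hz]
    exact T.Φ_nonneg w
  have h0 : fderiv ℝ T.Φ z = 0 := hmin.fderiv_eq_zero
  have h1 : HasFDerivAt T.Φ (0 : ℂ →L[ℝ] ℝ) z := by
    rw [← h0]
    exact hd.hasFDerivAt
  have h2 : HasFDerivAt (fun w => T.κ - 2 * T.Φ w) (0 : ℂ →L[ℝ] ℝ) z := by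
    have := (h1.const_mul 2).const_sub T.κ
    simpa using this
  have h3 : HasDerivAt (fun x : ℝ => 1 / x) (-(1 / (T.κ - 2 * T.Φ z) ^ 2)) (T.κ - 2 * T.Φ z) := by
    have := hasDerivAt_inv (T.κ_pos z).ne'
    simpa [one_div] using this
  have h4 := h3.comp_hasFDerivAt z h2
  have h5 : HasFDerivAt T.F ((-(1 / (T.κ - 2 * T.Φ z) ^ 2)) • (0 : ℂ →L[ℝ] ℝ)) z := h4
  simpa using h5

theorem lines_geodesic {Γ : Type} [Group Γ] [MulAction Γ E3] {T : TubeData}
    {g : E3 → E3 →L[ℝ] E3 →L[ℝ] ℝ} (hG : GlobalData Γ T g) (ℓ : ℝ) (z : ℂ) (hz : T.Φ z = 0) :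
    IsGeodesic g (fun t => ((z, ℓ * t) : E3)) := by
  have hz1 : ‖z‖ < 1 := T.norm_lt_one_of_zero hz
  have hsm : ContDiff ℝ ∞ (fun t : ℝ => ((z, ℓ * t) : E3)) :=
    contDiff_const.prodMk (contDiff_const.mul contDiff_id)
  have hd : ∀ t, deriv (fun t : ℝ => ((z, ℓ * t) : E3)) t = ((0, ℓ) : E3) := by
    intro t
    have h1 : HasDerivAt (fun t : ℝ => ((z, ℓ * t) : E3)) ((0, ℓ) : E3) t := by
      have h2 : HasDerivAt (fun t : ℝ => ℓ * t) ℓ t := by
        simpa using (hasDerivAt_id t).const_mul ℓ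
      exact (hasDerivAt_const t z).prodMk h2
    exact h1.deriv
  refine ⟨hsm, fun t e => ?_⟩
  rw [hd]
  have h1 : (fun τ : ℝ => g ((z, ℓ * τ) : E3) (deriv (fun t : ℝ => ((z, ℓ * t) : E3)) τ) e) =
      fun _ => T.F z * ℓ * e.2 := by
    funext τ
    rw [hd, hG.tube _ hz1, tubeMetric_apply]
    simp [dot]
  rw [h1, deriv_const]
  have h2 : (fun x : E3 => g x ((0, ℓ) : E3) ((0, ℓ) : E3)) =ᶠ[𝓝 ((z, ℓ * t) : E3)]
      fun x => T.F x.1 * (ℓ * ℓ) := by
    have hopen : IsOpen {x : E3 | ‖x.1‖ < 1} :=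
      isOpen_lt (continuous_norm.comp continuous_fst) continuous_const
    filter_upwards [hopen.mem_nhds (show ((z, ℓ * t) : E3) ∈ {x : E3 | ‖x.1‖ < 1} from hz1)]
      with x hx
    rw [hG.tube _ hx, tubeMetric_apply]
    simp [dot]
    ring
  have h3 : HasFDerivAt (fun x : E3 => T.F x.1 * (ℓ * ℓ)) (0 : E3 →L[ℝ] ℝ) ((z, ℓ * t) : E3) := by
    have h4 : HasFDerivAt (fun x : E3 => T.F x.1)
        ((0 : ℂ →L[ℝ] ℝ).comp (ContinuousLinearMap.fst ℝ ℂ ℝ)) ((z, ℓ * t) : E3) :=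
      HasFDerivAt.comp ((z, ℓ * t) : E3) (T.fderiv_F_of_zero hz) hasFDerivAt_fst
    have h5 := h4.mul_const (ℓ * ℓ)
    simpa using h5
  rw [h2.fderiv_eq, h3.fderiv]
  simp

theorem proj_smul {Γ : Type} [Group Γ] [MulAction Γ E3] (γ : Γ) (x : E3) :
    proj Γ (γ • x) = proj Γ x :=
  Quotient.sound (MulAction.orbitRel_apply.mpr (MulAction.mem_orbit x γ))

theorem linesModule : LinesModule := by
  intro Γ _ _ T g hG τ ℓ hℓ hτ
  refine ⟨fun z hz => lines_geodesic hG ℓ z hz, ?_⟩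
  have hper : ∀ z : ℂ, Function.Periodic (fun t : ℝ => proj Γ ((z, ℓ * t) : E3)) 1 := by
    intro z t
    have h1 : ((z, ℓ * (t + 1)) : E3) = τ • ((z, ℓ * t) : E3) := by
      rw [hτ]
      ext <;> simp [mul_add]
    simp only [h1, proj_smul]
  let f : ℂ × AddCircle (1 : ℝ) → QuotM E3 Γ := fun q => (hper q.1).lift q.2
  have hq : IsOpenQuotientMap (fun q : ℂ × ℝ => ((q.1, (q.2 : AddCircle (1 : ℝ))) :
      ℂ × AddCircle (1 : ℝ))) :=
    IsOpenQuotientMap.id.prodMap QuotientAddGroup.isOpenQuotientMap_mk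
  have hf : Continuous f := by
    rw [hq.isQuotientMap.continuous_iff]
    have h1 : f ∘ (fun q : ℂ × ℝ => ((q.1, (q.2 : AddCircle (1 : ℝ))) : ℂ × AddCircle (1 : ℝ))) =
        fun q : ℂ × ℝ => proj Γ ((q.1, ℓ * q.2) : E3) := rfl
    rw [h1]
    have h2 : Continuous fun q : ℂ × ℝ => ((q.1, ℓ * q.2) : E3) := by fun_prop
    exact (continuous_quot_mk).comp h2
  refine ⟨fun z => ⟨fun x => f (z, x), hf.comp (Continuous.prodMk_right z)⟩, fun z t => rfl,
    fun z z' => ?_⟩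
  refine ⟨⟨⟨fun q => f (((1 - (q.1 : ℝ)) : ℝ) • z + (q.1 : ℝ) • z', q.2), ?_⟩, ?_, ?_⟩⟩
  · refine hf.comp (Continuous.prodMk ?_ continuous_snd)
    have h3 : Continuous fun q : unitInterval × AddCircle (1 : ℝ) => (q.1 : ℝ) :=
      continuous_subtype_val.comp continuous_fst
    exact ((continuous_const.sub h3).smul continuous_const).add (h3.smul continuous_const)
  · intro x
    simp
  · intro x
    simp

end Pool.Agent.Helper79.NC
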