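import Mathlib

/-! Polynomial functions on `F_p`-subspaces, and towers of additive covers (MP_22cb07_al). -/

set_option autoImplicit false

namespace Pool.H47.Tower

open MvPolynomial

variable (p : ℕ) [Fact p.Prime] {X : Type*} [AddCommGroup X] [Module (ZMod p) X]
  {K : Type*} [Field K] [Algebra (ZMod p) K] {L : Type*} [Field L] [Algebra (ZMod p) L]

/-- `P` is, on the subspace `V`, a polynomial function of bounded degree. -/
def IsPolyOn (V : Submodule (ZMod p) X) (P : X → K) : Prop :=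
  ∃ D : ℕ, ∀ (k : ℕ) (u : X) (e : Fin k → X), u ∈ V → (∀ i, e i ∈ V) →
    ∃ F : MvPolynomial (Fin k) K, F.totalDegree ≤ D ∧
      ∀ ε : Fin k → ZMod p,
        P (u + ∑ i, ε i • e i) = eval (fun i => algebraMap (ZMod p) K (ε i)) F

variable {p}

theorem IsPolyOn.mono {V W : Submodule (ZMod p) X} {P : X → K} (h : IsPolyOn p V P)
    (hWV : W ≤ V) : IsPolyOn p W P := by
  obtain ⟨D, hD⟩ := h
  exact ⟨D, fun k u e hu he => hD k u e (hWV hu) fun i => hWV (he i)⟩

theorem isPolyOn_const (V : Submodule (ZMod p) X) (c : K) : IsPolyOn p V fun _ => c :=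
  ⟨0, fun k u e _ _ => ⟨C c, by simp, fun ε => by simp⟩⟩

theorem IsPolyOn.add {V : Submodule (ZMod p) X} {P Q : X → K} (hP : IsPolyOn p V P)
    (hQ : IsPolyOn p V Q) : IsPolyOn p V fun v => P v + Q v := by
  obtain ⟨D, hD⟩ := hP
  obtain ⟨E, hE⟩ := hQ
  refine ⟨max D E, fun k u e hu he => ?_⟩
  obtain ⟨F, hF, hF'⟩ := hD k u e hu he
  obtain ⟨G, hG, hG'⟩ := hE k u e hu he
  exact ⟨F + G, (totalDegree_add F G).trans (max_le_max hF hG), fun ε => by
    simp only [hF', hG', map_add]⟩

theorem IsPolyOn.mul {V : Submodule (ZMod p) X} {P Q : X → K} (hP : IsPolyOn p V P)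
    (hQ : IsPolyOn p V Q) : IsPolyOn p V fun v => P v * Q v := by
  obtain ⟨D, hD⟩ := hP
  obtain ⟨E, hE⟩ := hQ
  refine ⟨D + E, fun k u e hu he => ?_⟩
  obtain ⟨F, hF, hF'⟩ := hD k u e hu he
  obtain ⟨G, hG, hG'⟩ := hE k u e hu he
  exact ⟨F * G, (totalDegree_mul F G).trans (add_le_add hF hG), fun ε => by
    simp only [hF', hG', map_mul]⟩

theorem IsPolyOn.sub_const {V : Submodule (ZMod p) X} {P : X → K} (hP : IsPolyOn p V P)
    (c : K) : IsPolyOn p V fun v => P v - c := by
  simpa [sub_eq_add_neg] using hP.add (isPolyOn_const V (-c))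

theorem isPolyOn_linear (V : Submodule (ZMod p) X) (l : X →ₗ[ZMod p] K) :
    IsPolyOn p V fun v => l v := by
  refine ⟨1, fun k u e _ _ => ⟨C (l u) + ∑ i, C (l (e i)) * MvPolynomial.X i, ?_, fun ε => ?_⟩⟩
  · refine (totalDegree_add _ _).trans (max_le (by simp) ?_)
    refine totalDegree_finsetSum_le fun i _ => ?_
    refine (totalDegree_mul _ _).trans ?_
    rw [totalDegree_C, totalDegree_X, zero_add]
  · simp only [map_add, map_sum, eval_C, map_mul, eval_X, map_smul]
    congr 1
    refine Finset.sum_congr rfl fun i _ => ?_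
    rw [Algebra.smul_def, mul_comm]

/-- Composition of a polynomial function with an `F_p`-linear endomorphism of `K`. -/
theorem IsPolyOn.comp_linear {V : Submodule (ZMod p) X} {P : X → K} (hP : IsPolyOn p V P)
    (s : K →ₗ[ZMod p] L) : IsPolyOn p V fun v => s (P v) := by
  obtain ⟨D, hD⟩ := hP
  refine ⟨D, fun k u e hu he => ?_⟩
  obtain ⟨F, hF, hF'⟩ := hD k u e hu he
  refine ⟨∑ m ∈ F.support, monomial m (s (coeff m F)), ?_, fun ε => ?_⟩
  · refine totalDegree_finsetSum_le fun m hm => ?_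
    refine (totalDegree_monomial_le _ _).trans (le_trans ?_ hF)
    exact le_totalDegree hm
  · simp only [hF']
    rw [eval_eq, map_sum, map_sum]
    refine Finset.sum_congr rfl fun m _ => ?_
    have h1 : ∏ i ∈ m.support, (algebraMap (ZMod p) K (ε i)) ^ m i =
        algebraMap (ZMod p) K (∏ i ∈ m.support, ε i ^ m i) := by
      rw [map_prod]
      simp only [map_pow]
    have h2 : ∏ i ∈ m.support, (algebraMap (ZMod p) L (ε i)) ^ m i =
        algebraMap (ZMod p) L (∏ i ∈ m.support, ε i ^ m i) := by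
      rw [map_prod]
      simp only [map_pow]
    rw [h1, mul_comm, ← Algebra.smul_def, map_smul, eval_monomial, Finsupp.prod, h2,
      Algebra.smul_def, mul_comm]

/-- Composition of polynomial functions with a polynomial. -/
theorem IsPolyOn.comp_poly {V : Submodule (ZMod p) X} {ι : Type*} {P : ι → X → K}
    (hP : ∀ i, IsPolyOn p V (P i)) (f : MvPolynomial ι K) :
    IsPolyOn p V fun v => eval (fun i => P i v) f := by
  induction f using MvPolynomial.induction_on with
  | C a => simpa using isPolyOn_const V a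
  | add f g hf hg => simpa using hf.add hg
  | mul_X f i hf => simpa using hf.mul (hP i)

/-- Linearly independent vectors modulo a finite subspace. -/
theorem exists_indep_mod (V U : Submodule (ZMod p) X) (hV : Infinite V) (hU : Finite U)
    (N : ℕ) : ∃ e : Fin N → X, (∀ i, e i ∈ V) ∧
      ∀ ε : Fin N → ZMod p, ∑ i, ε i • e i ∈ U → ε = 0 := by
  have hfin : Finite (U.comap V.subtype) := by
    refine Finite.of_injective (fun x : U.comap V.subtype => (⟨V.subtype x.1, x.2⟩ : U)) ?_
    intro x y hxy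
    have := congrArg Subtype.val hxy
    exact Subtype.ext (Subtype.ext this)
  have hinf : Infinite (V ⧸ U.comap V.subtype) := by
    by_contra h
    rw [not_infinite_iff_finite] at h
    have h2 : Finite V := by
      have e := AddSubgroup.addGroupEquivQuotientProdAddSubgroup
        (s := (U.comap V.subtype).toAddSubgroup)
      have h3 : Finite (V ⧸ (U.comap V.subtype).toAddSubgroup) := h
      have h4 : Finite (U.comap V.subtype).toAddSubgroup := hfin
      exact Finite.of_equiv _ e.symm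
    exact not_finite V
  have hrank : Cardinal.aleph0 ≤ Module.rank (ZMod p) (V ⧸ U.comap V.subtype) := by
    by_contra h
    rw [not_le, Module.rank_lt_aleph0_iff] at h
    have : Finite (V ⧸ U.comap V.subtype) := Module.finite_of_finite (ZMod p)
    exact not_finite (V ⧸ U.comap V.subtype)
  have hN : (N : Cardinal) ≤ Module.rank (ZMod p) (V ⧸ U.comap V.subtype) :=
    (Cardinal.natCast_le_aleph0 (n := N)).trans hrank
  rw [le_rank_iff_exists_linearIndependent_finset] at hN
  obtain ⟨s, hs, hli⟩ := hN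
  have hli' : LinearIndependent (ZMod p)
      (fun i : Fin N => ((s.equivFinOfCardEq hs).symm i : V ⧸ U.comap V.subtype)) :=
    hli.comp _ (s.equivFinOfCardEq hs).symm.injective
  choose e he using fun i : Fin N => Submodule.mkQ_surjective (U.comap V.subtype)
    ((s.equivFinOfCardEq hs).symm i : V ⧸ U.comap V.subtype)
  refine ⟨fun i => (e i : X), fun i => (e i).2, fun ε hε => ?_⟩
  rw [Fintype.linearIndependent_iff] at hli'
  have h0 : ∑ i, ε i • ((s.equivFinOfCardEq hs).symm i : V ⧸ U.comap V.subtype) = 0 := by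
    have h1 : (U.comap V.subtype).mkQ (∑ i, ε i • e i) = 0 := by
      rw [Submodule.mkQ_apply, Submodule.Quotient.mk_eq_zero, Submodule.mem_comap]
      simpa using hε
    rw [map_sum] at h1
    rw [← h1]
    refine Finset.sum_congr rfl fun i _ => ?_
    rw [map_smul, he]
  funext i
  exact hli' ε h0 i

/-- The extension step (Chevalley-Warning). -/
theorem exists_extend_step {ι : Type*} [Fintype ι] (V : Submodule (ZMod p) X) (hV : Infinite V)
    (Q : ι → X → ZMod p) (hQ : ∀ j, IsPolyOn p V (Q j)) (U : Submodule (ZMod p) X) (hUV : U ≤ V)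
    (hU : Finite U) (hQU : ∀ v ∈ U, ∀ j, Q j v = 0) :
    ∃ w ∈ V, w ∉ U ∧ ∀ u ∈ U, ∀ c : ZMod p, ∀ j, Q j (u + c • w) = 0 := by
  classical
  have : Fintype U := Fintype.ofFinite U
  choose D hD using hQ
  obtain ⟨e, heV, heU⟩ := exists_indep_mod V U hV hU
    (∑ t : U × ZMod p × ι, D t.2.2 + 1)
  have hF : ∀ t : U × ZMod p × ι, ∃ F : MvPolynomial (Fin (∑ t : U × ZMod p × ι, D t.2.2 + 1))
      (ZMod p), F.totalDegree ≤ D t.2.2 ∧ ∀ ε, Q t.2.2 ((t.1 : X) + t.2.1 • ∑ i, ε i • e i) =
        eval ε F := by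
    intro t
    obtain ⟨F, hF1, hF2⟩ := hD t.2.2 _ (t.1 : X) (fun i => t.2.1 • e i) (hUV t.1.2)
      (fun i => V.smul_mem _ (heV i))
    refine ⟨F, hF1, fun ε => ?_⟩
    have := hF2 ε
    simp only [Algebra.algebraMap_self, RingHom.id_apply] at this
    rw [← this, Finset.smul_sum]
    congr 2
    refine Finset.sum_congr rfl fun i _ => ?_
    rw [smul_comm]
  choose F hF1 hF2 using hF
  have hlt : ∑ t ∈ (Finset.univ : Finset (U × ZMod p × ι)), (F t).totalDegree <
      Fintype.card (Fin (∑ t : U × ZMod p × ι, D t.2.2 + 1)) := by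
    rw [Fintype.card_fin]
    exact Nat.lt_succ_of_le (Finset.sum_le_sum fun t _ => hF1 t)
  have hdvd := char_dvd_card_solutions_of_sum_lt p hlt
  have h0 : ∀ t ∈ (Finset.univ : Finset (U × ZMod p × ι)),
      eval (0 : Fin (∑ t : U × ZMod p × ι, D t.2.2 + 1) → ZMod p) (F t) = 0 := by
    intro t _
    rw [← hF2 t]
    simpa using hQU t.1 t.1.2 t.2.2
  have hcard : 1 < Fintype.card {x : Fin (∑ t : U × ZMod p × ι, D t.2.2 + 1) → ZMod p //
      ∀ t ∈ (Finset.univ : Finset (U × ZMod p × ι)), eval x (F t) = 0} := by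
    have hpos : 0 < Fintype.card {x : Fin (∑ t : U × ZMod p × ι, D t.2.2 + 1) → ZMod p //
        ∀ t ∈ (Finset.univ : Finset (U × ZMod p × ι)), eval x (F t) = 0} :=
      Fintype.card_pos_iff.mpr ⟨⟨0, h0⟩⟩
    refine lt_of_lt_of_le (Fact.out : p.Prime).one_lt (Nat.le_of_dvd hpos ?_)
    convert hdvd
  obtain ⟨x, hx⟩ := Fintype.exists_ne_of_one_lt_card hcard ⟨0, h0⟩
  refine ⟨∑ i, x.1 i • e i, V.sum_mem fun i _ => V.smul_mem _ (heV i), ?_, ?_⟩
  · intro hmem
    exact hx (Subtype.ext (heU x.1 hmem))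
  · intro u hu c j
    rw [hF2 (⟨u, hu⟩, c, j)]
    exact x.2 _ (Finset.mem_univ _)

/-- Polynomial functions without constant term vanish on an infinite subspace. -/
theorem exists_infinite_subspace {ι : Type*} [Fintype ι] (V : Submodule (ZMod p) X)
    (hV : Infinite V) (Q : ι → X → ZMod p) (hQ : ∀ j, IsPolyOn p V (Q j))
    (hQ0 : ∀ j, Q j 0 = 0) :
    ∃ U : Submodule (ZMod p) X, U ≤ V ∧ Infinite U ∧ ∀ v ∈ U, ∀ j, Q j v = 0 := by
  obtain ⟨U, -, hU⟩ := zorn_le_nonempty₀
    {U : Submodule (ZMod p) X | U ≤ V ∧ ∀ v ∈ U, ∀ j, Q j v = 0} (by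
      intro c hc hchain y hy
      refine ⟨sSup c, ⟨sSup_le fun U hU => (hc hU).1, ?_⟩, fun z hz => le_sSup hz⟩
      intro v hv j
      rw [Submodule.mem_sSup_of_directed ⟨y, hy⟩ hchain.directedOn] at hv
      obtain ⟨U, hUc, hvU⟩ := hv
      exact (hc hUc).2 v hvU j) ⊥ ⟨bot_le, fun v hv j => by
        rw [Submodule.mem_bot] at hv
        rw [hv, hQ0]⟩
  refine ⟨U, hU.prop.1, ?_, hU.prop.2⟩
  by_contra hfin
  rw [not_infinite_iff_finite] at hfin
  obtain ⟨w, hwV, hwU, hw⟩ := exists_extend_step V hV Q hQ U hU.prop.1 hfin hU.prop.2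
  have hmem : U ⊔ Submodule.span (ZMod p) {w} ∈
      {U : Submodule (ZMod p) X | U ≤ V ∧ ∀ v ∈ U, ∀ j, Q j v = 0} := by
    refine ⟨sup_le hU.prop.1 ?_, ?_⟩
    · rw [Submodule.span_singleton_le_iff_mem]
      exact hwV
    · intro v hv j
      obtain ⟨u, hu, y, hy, rfl⟩ := Submodule.mem_sup.mp hv
      obtain ⟨c, rfl⟩ := Submodule.mem_span_singleton.mp hy
      exact hw u hu c j
  have hle := hU.le_of_ge hmem le_sup_left
  exact hwU (hle (Submodule.mem_sup_right (Submodule.mem_span_singleton_self w)))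

end Pool.H47.Tower
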