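import Pool.Agent.Helper47.Tower1

/-! Towers of additive covers of affine space (MP_22cb07_al). -/

set_option autoImplicit false

namespace Pool.H47.Tower

open MvPolynomial

section

variable {p : ℕ} [Fact p.Prime] {X : Type*} [AddCommGroup X] [Module (ZMod p) X]
  {K : Type*} [Field K] [Algebra (ZMod p) K]

theorem exists_subspace_linear (V : Submodule (ZMod p) X) (hV : Infinite V) (P : X → K)
    (hP : IsPolyOn p V P) (hP0 : P 0 = 0) (R : Submodule (ZMod p) K) (hR : Finite (K ⧸ R)) :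
    ∃ U : Submodule (ZMod p) X, U ≤ V ∧ Infinite U ∧ ∀ v ∈ U, P v ∈ R := by
  let b := Module.finBasis (ZMod p) (K ⧸ R)
  obtain ⟨U, hUV, hU, hUQ⟩ := exists_infinite_subspace V hV
    (fun j v => (b.coord j ∘ₗ R.mkQ) (P v)) (fun j => hP.comp_linear (b.coord j ∘ₗ R.mkQ))
    (fun j => by rw [hP0, map_zero])
  refine ⟨U, hUV, hU, fun v hv => ?_⟩
  have h1 : R.mkQ (P v) = 0 := by
    rw [← b.forall_coord_eq_zero_iff]
    intro j
    exact hUQ v hv j
  rwa [Submodule.mkQ_apply, Submodule.Quotient.mk_eq_zero] at h1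

/-- A linear section of a linear map over its range. -/
theorem exists_section (A : K →ₗ[ZMod p] K) :
    ∃ s : K →ₗ[ZMod p] K, ∀ z ∈ LinearMap.range A, A (s z) = z := by
  obtain ⟨s₀, hs₀⟩ := A.rangeRestrict.exists_rightInverse_of_surjective
    (LinearMap.range_rangeRestrict A)
  obtain ⟨s, hs⟩ := LinearMap.exists_extend s₀
  refine ⟨s, fun z hz => ?_⟩
  have h1 : s z = s₀ ⟨z, hz⟩ := by
    rw [← hs]
    rfl
  have h2 := LinearMap.congr_fun hs₀ ⟨z, hz⟩
  rw [h1]
  exact congrArg Subtype.val h2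

theorem eval_congr_vars {σ : Type*} (f : MvPolynomial σ K) (x y : σ → K)
    (h : ∀ i ∈ f.vars, x i = y i) : eval x f = eval y f :=
  eval₂Hom_congr' rfl (fun i hi _ => h i hi) rfl

theorem tower_step [Infinite K] {n m : ℕ} (A : Fin m → K →ₗ[ZMod p] K)
    (hA : ∀ i, Finite (K ⧸ LinearMap.range (A i)))
    (f : Fin m → MvPolynomial (Fin n ⊕ Fin m) K)
    (hf : ∀ i j, Sum.inr j ∈ (f i).vars → j < i)
    (x₀ u : Fin n → K) (y₀ : Fin m → K)
    (h₀ : ∀ i, A i (y₀ i) = eval (Sum.elim x₀ y₀) (f i)) (k : ℕ) :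
    ∃ V : Submodule (ZMod p) K, Infinite V ∧ ∃ y : Fin m → K → K,
      (∀ i, IsPolyOn p V (y i)) ∧ (∀ i, y i 0 = y₀ i) ∧
      ∀ v ∈ V, ∀ i : Fin m, (i : ℕ) < k → A i (y i v) =
        eval (Sum.elim (fun a => x₀ a + v * u a) (fun j => y j v)) (f i) := by
  induction k with
  | zero =>
    refine ⟨⊤, ?_, fun i _ => y₀ i, fun i => isPolyOn_const ⊤ (y₀ i), fun i => rfl,
      fun v _ i hi => absurd hi (Nat.not_lt_zero _)⟩
    exact Infinite.of_injective (fun x : K => (⟨x, trivial⟩ : (⊤ : Submodule (ZMod p) K)))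
      fun x y hxy => congrArg Subtype.val hxy
  | succ k ih =>
    obtain ⟨V, hV, y, hyP, hy0, hy⟩ := ih
    by_cases hk : k < m
    · have hPoly : IsPolyOn p V fun v =>
          eval (Sum.elim (fun a => x₀ a + v * u a) (fun j => y j v)) (f ⟨k, hk⟩) := by
        have h1 : ∀ s : Fin n ⊕ Fin m, IsPolyOn p V
            (fun v => Sum.elim (fun a => x₀ a + v * u a) (fun j => y j v) s) := by
          rintro (a | j)
          · exact (isPolyOn_const V (x₀ a)).add
              (isPolyOn_linear V (LinearMap.mulRight (ZMod p) (u a)))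
          · exact hyP j
        exact IsPolyOn.comp_poly h1 (f ⟨k, hk⟩)
      have hz0 : eval (Sum.elim (fun a => x₀ a + (0 : K) * u a) (fun j => y j 0)) (f ⟨k, hk⟩) =
          eval (Sum.elim x₀ y₀) (f ⟨k, hk⟩) := by
        simp only [zero_mul, add_zero, hy0]
      obtain ⟨U, hUV, hU, hUP⟩ := exists_subspace_linear V hV
        (fun v => eval (Sum.elim (fun a => x₀ a + v * u a) (fun j => y j v)) (f ⟨k, hk⟩) -
          eval (Sum.elim x₀ y₀) (f ⟨k, hk⟩)) (hPoly.sub_const _) (by
            simp only [hz0, sub_self]) (LinearMap.range (A ⟨k, hk⟩)) (hA _)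
      obtain ⟨s, hs⟩ := exists_section (A ⟨k, hk⟩)
      have hagree : ∀ (i : Fin m) (v : K), (i : ℕ) ≤ k →
          eval (Sum.elim (fun a => x₀ a + v * u a) (fun j => Function.update y ⟨k, hk⟩
            (fun v => y₀ ⟨k, hk⟩ + s (eval (Sum.elim (fun a => x₀ a + v * u a)
              (fun j => y j v)) (f ⟨k, hk⟩) - eval (Sum.elim x₀ y₀) (f ⟨k, hk⟩))) j v)) (f i) =
          eval (Sum.elim (fun a => x₀ a + v * u a) (fun j => y j v)) (f i) := by
        intro i v hi
        refine eval_congr_vars _ _ _ ?_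
        rintro (a | j) hj
        · rfl
        · have h1 : j < i := hf i j hj
          have h2 : j ≠ ⟨k, hk⟩ := by
            intro h
            rw [h] at h1
            exact absurd (show k < (i : ℕ) from h1) (not_lt.mpr hi)
          simp only [Sum.elim_inr, Function.update_of_ne h2]
      refine ⟨U, hU, Function.update y ⟨k, hk⟩ (fun v => y₀ ⟨k, hk⟩ +
        s (eval (Sum.elim (fun a => x₀ a + v * u a) (fun j => y j v)) (f ⟨k, hk⟩) -
          eval (Sum.elim x₀ y₀) (f ⟨k, hk⟩))), fun i => ?_, fun i => ?_, fun v hv i hi => ?_⟩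
      · by_cases hi : i = ⟨k, hk⟩
        · rw [hi, Function.update_self]
          exact (isPolyOn_const U _).add (((hPoly.sub_const _).mono hUV).comp_linear s)
        · rw [Function.update_of_ne hi]
          exact (hyP i).mono hUV
      · by_cases hi : i = ⟨k, hk⟩
        · rw [hi, Function.update_self, hz0, sub_self, map_zero, add_zero]
        · rw [Function.update_of_ne hi]
          exact hy0 i
      · rw [hagree i v (Nat.lt_succ_iff.mp hi)]
        by_cases hik : i = ⟨k, hk⟩
        · subst hik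
          rw [Function.update_self, map_add, hs _ (hUP v hv), h₀]
          ring
        · rw [Function.update_of_ne hik]
          have hik' : (i : ℕ) ≠ k := fun h => hik (Fin.ext h)
          exact hy v (hUV hv) i (lt_of_le_of_ne (Nat.lt_succ_iff.mp hi) hik')
    · exact ⟨V, hV, y, hyP, hy0, fun v hv i _ => hy v hv i (lt_of_lt_of_le i.2 (not_lt.mp hk))⟩

/-- Towers of additive covers with finite cokernels have Zariski dense projections. -/
theorem tower_dense [Infinite K] {n m : ℕ} (A : Fin m → K →ₗ[ZMod p] K)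
    (hA : ∀ i, Finite (K ⧸ LinearMap.range (A i)))
    (f : Fin m → MvPolynomial (Fin n ⊕ Fin m) K)
    (hf : ∀ i j, Sum.inr j ∈ (f i).vars → j < i)
    (x₀ : Fin n → K) (y₀ : Fin m → K)
    (h₀ : ∀ i, A i (y₀ i) = eval (Sum.elim x₀ y₀) (f i))
    (g : MvPolynomial (Fin n) K) (hg : g ≠ 0) :
    ∃ (x : Fin n → K) (y : Fin m → K),
      (∀ i, A i (y i) = eval (Sum.elim x y) (f i)) ∧ eval x g ≠ 0 := by
  have hx1 : ∃ x₁ : Fin n → K, eval x₁ g ≠ 0 := by
    by_contra h
    push Not at h
    apply hg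
    refine MvPolynomial.funext fun x => ?_
    rw [h x, map_zero]
  obtain ⟨x₁, hx₁⟩ := hx1
  obtain ⟨V, hV, y, -, -, hy⟩ := tower_step A hA f hf x₀ (x₁ - x₀) y₀ h₀ m
  let G : Polynomial K := aeval (fun a => Polynomial.C (x₀ a) + Polynomial.X *
    Polynomial.C ((x₁ - x₀) a)) g
  have hG : ∀ t : K, G.eval t = eval (fun a => x₀ a + t * (x₁ - x₀) a) g := by
    intro t
    have h1 : (Polynomial.evalRingHom t).comp (aeval (fun a => Polynomial.C (x₀ a) +
        Polynomial.X * Polynomial.C ((x₁ - x₀) a)) : MvPolynomial (Fin n) K →ₐ[K]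
          Polynomial K).toRingHom = eval (fun a => x₀ a + t * (x₁ - x₀) a) := by
      refine MvPolynomial.ringHom_ext (fun c => ?_) (fun a => ?_)
      · simp
      · simp
    exact RingHom.congr_fun h1 g
  have hG0 : G ≠ 0 := by
    intro h
    have h2 := hG 1
    rw [h, Polynomial.eval_zero] at h2
    apply hx₁
    rw [h2]
    congr 2
    funext a
    simp
  have hroots : (G.rootSet K).Finite := Polynomial.rootSet_finite G K
  have hVinf : (V : Set K).Infinite := Set.infinite_coe_iff.mp hV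
  obtain ⟨v, hvV, hvG⟩ := hVinf.exists_notMem_finset hroots.toFinset
  refine ⟨fun a => x₀ a + v * (x₁ - x₀) a, fun j => y j v, fun i => hy v hvV i i.2, ?_⟩
  intro h
  apply hvG
  rw [Set.Finite.mem_toFinset, Polynomial.mem_rootSet]
  refine ⟨hG0, ?_⟩
  rw [Polynomial.coe_aeval_eq_eval, hG, h]

end

end Pool.H47.Tower
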