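import Pool.Agent.Helper47.Tower2

/-! Finiteness of the cokernel of a separable additive polynomial over a field with finitely
generated absolute Galois group (MP_22cb07_al). -/

set_option autoImplicit false

namespace Pool.H47.Tower

open Polynomial

variable {K : Type*} [Field K] (p : ℕ) [Fact p.Prime] [CharP K p]

/-- The additive map `y ↦ ∑ a_j y^(p^j)`. -/
noncomputable def addMap {L : Type*} [CommRing L] [CharP L p] (r : ℕ) (a : ℕ → L) : L →+ L where
  toFun y := ∑ j ∈ Finset.range (r + 1), a j * y ^ p ^ j
  map_zero' := by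
    refine Finset.sum_eq_zero fun j _ => ?_
    rw [zero_pow (pow_ne_zero _ (Fact.out : p.Prime).ne_zero), mul_zero]
  map_add' x y := by
    rw [← Finset.sum_add_distrib]
    refine Finset.sum_congr rfl fun j _ => ?_
    rw [add_pow_char_pow, mul_add]

/-- The polynomial `∑ a_j X^(p^j) - b`. -/
noncomputable def addPoly (r : ℕ) (a : ℕ → K) (b : K) : K[X] :=
  ∑ j ∈ Finset.range (r + 1), C (a j) * X ^ p ^ j - C b

omit [Fact p.Prime] in
theorem derivative_addPoly (r : ℕ) (a : ℕ → K) (b : K) :
    derivative (addPoly p r a b) = C (a 0) := by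
  rw [addPoly, derivative_sub, derivative_C, sub_zero, derivative_sum,
    Finset.sum_range_succ', Finset.sum_eq_zero, zero_add]
  · simp
  · intro j _
    rw [derivative_C_mul, derivative_X_pow, Nat.cast_pow, CharP.cast_eq_zero,
      zero_pow (Nat.succ_ne_zero j)]
    simp

theorem separable_addPoly (r : ℕ) (a : ℕ → K) (ha : a 0 ≠ 0) (b : K) :
    (addPoly p r a b).Separable := by
  refine ⟨0, C (a 0)⁻¹, ?_⟩
  rw [derivative_addPoly, zero_mul, zero_add, ← C_mul, inv_mul_cancel₀ ha, C_1]

omit [CharP K p] in
theorem aeval_addPoly {L : Type*} [Field L] [Algebra K L] [CharP L p] (r : ℕ) (a : ℕ → K) (b : K)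
    (y : L) : aeval y (addPoly p r a b) =
      addMap p r (fun j => algebraMap K L (a j)) y - algebraMap K L b := by
  simp [addPoly, addMap]

theorem exists_root_addPoly (L : Type*) [Field L] [Algebra K L] [IsAlgClosed L] [CharP L p]
    (r : ℕ) (a : ℕ → K) (ha : a 0 ≠ 0) (b : K) :
    ∃ y : L, addMap p r (fun j => algebraMap K L (a j)) y = algebraMap K L b := by
  have hdeg : (addPoly p r a b).degree ≠ 0 := by
    intro h
    have h1 := Polynomial.eq_C_of_degree_eq_zero h
    have h2 := derivative_addPoly p r a b
    rw [h1, derivative_C] at h2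
    exact ha (C_injective (h2.symm.trans C_0.symm))
  have hinj : (algebraMap K L) = algebraMap K L := rfl
  obtain ⟨y, hy⟩ := IsAlgClosed.exists_aeval_eq_zero L (addPoly p r a b) hdeg
  rw [aeval_addPoly] at hy
  exact ⟨y, sub_eq_zero.mp hy⟩

/-- A separable element of the algebraic closure fixed by the absolute Galois group is in `K`. -/
theorem mem_of_fixed (z : AlgebraicClosure K) (hsep : IsSeparable K z)
    (hz : ∀ σ : AlgebraicClosure K ≃ₐ[K] AlgebraicClosure K, σ z = z) :
    ∃ c : K, algebraMap K (AlgebraicClosure K) c = z := by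
  have hint : IsIntegral K z := hsep.isIntegral
  have hroots : ∀ w ∈ (minpoly K z).aroots (AlgebraicClosure K), w = z := by
    intro w hw
    have h1 : aeval w (minpoly K z) = 0 := (mem_aroots.mp hw).2
    have h2 : minpoly K w = minpoly K z :=
      (minpoly.eq_of_irreducible_of_monic (minpoly.irreducible hint) h1 (minpoly.monic hint)).symm
    have h3 := (Normal.minpoly_eq_iff_mem_orbit (F := K) (AlgebraicClosure K)).mp h2
    obtain ⟨σ, hσ⟩ := h3
    rw [← hσ]
    exact hz σ
  have hnodup : ((minpoly K z).aroots (AlgebraicClosure K)).Nodup :=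
    nodup_aroots_iff_of_splits (minpoly.ne_zero hint) (IsAlgClosed.splits _) |>.mpr hsep
  have hcard : ((minpoly K z).aroots (AlgebraicClosure K)).card = (minpoly K z).natDegree := by
    have := (IsAlgClosed.splits ((minpoly K z).map
      (algebraMap K (AlgebraicClosure K)))).natDegree_eq_card_roots
    rw [natDegree_map] at this
    exact this.symm
  have hle : ((minpoly K z).aroots (AlgebraicClosure K)).card ≤ 1 := by
    have h1 : (minpoly K z).aroots (AlgebraicClosure K) ≤ {z} := by
      rw [Multiset.le_iff_subset hnodup]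
      intro w hw
      rw [Multiset.mem_singleton]
      exact hroots w hw
    simpa using Multiset.card_le_card h1
  have hdeg : (minpoly K z).natDegree = 1 := le_antisymm (hcard ▸ hle) (minpoly.natDegree_pos hint)
  exact minpoly.natDegree_eq_one_iff.mp hdeg

/-- An element fixed by a dense subgroup is fixed. -/
theorem fixed_of_dense (S : Set (AlgebraicClosure K ≃ₐ[K] AlgebraicClosure K))
    (hS : closure ((Subgroup.closure S : Subgroup (AlgebraicClosure K ≃ₐ[K] AlgebraicClosure K)) :
      Set (AlgebraicClosure K ≃ₐ[K] AlgebraicClosure K)) = Set.univ)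
    (z : AlgebraicClosure K) (hz : ∀ σ ∈ S, σ z = z) :
    ∀ σ : AlgebraicClosure K ≃ₐ[K] AlgebraicClosure K, σ z = z := by
  have hopen : IsOpen (MulAction.stabilizer (AlgebraicClosure K ≃ₐ[K] AlgebraicClosure K) z :
      Set (AlgebraicClosure K ≃ₐ[K] AlgebraicClosure K)) :=
    stabilizer_isOpen_of_isIntegral z
  have hclosed : IsClosed (MulAction.stabilizer (AlgebraicClosure K ≃ₐ[K] AlgebraicClosure K) z :
      Set (AlgebraicClosure K ≃ₐ[K] AlgebraicClosure K)) :=
    OpenSubgroup.isClosed ⟨_, hopen⟩
  have hle : Subgroup.closure S ≤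
      MulAction.stabilizer (AlgebraicClosure K ≃ₐ[K] AlgebraicClosure K) z := by
    rw [Subgroup.closure_le]
    intro σ hσ
    exact hz σ hσ
  have h1 := closure_minimal (SetLike.coe_subset_coe.mpr hle) hclosed
  rw [hS] at h1
  intro σ
  exact h1 (Set.mem_univ σ)

/-- Finiteness of the cokernel. -/
theorem finite_coker [Algebra (ZMod p) K]
    (hfg : ∃ S : Set (AlgebraicClosure K ≃ₐ[K] AlgebraicClosure K), S.Finite ∧
      closure ((Subgroup.closure S : Subgroup (AlgebraicClosure K ≃ₐ[K] AlgebraicClosure K)) :
        Set (AlgebraicClosure K ≃ₐ[K] AlgebraicClosure K)) = Set.univ)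
    (r : ℕ) (a : ℕ → K) (ha : a 0 ≠ 0) :
    Finite (K ⧸ LinearMap.range ((addMap p r a).toZModLinearMap p)) := by
  obtain ⟨S, hSfin, hS⟩ := hfg
  have : CharP (AlgebraicClosure K) p := charP_of_injective_algebraMap
    (algebraMap K (AlgebraicClosure K)).injective p
  choose y hy using exists_root_addPoly p (AlgebraicClosure K) r a ha
  let B : AlgebraicClosure K →+ AlgebraicClosure K :=
    addMap p r (fun j => algebraMap K (AlgebraicClosure K) (a j))
  have hBσ : ∀ (σ : AlgebraicClosure K ≃ₐ[K] AlgebraicClosure K) (z : AlgebraicClosure K),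
      B (σ z) = σ (B z) := by
    intro σ z
    simp [B, addMap]
  have hBK : ∀ c : K, B (algebraMap K (AlgebraicClosure K) c) =
      algebraMap K (AlgebraicClosure K) (addMap p r a c) := by
    intro c
    simp [B, addMap]
  -- the kernel is finite
  have hker : {z : AlgebraicClosure K | B z = 0}.Finite := by
    have h1 : addPoly p r a 0 ≠ 0 := (separable_addPoly p r a ha 0).ne_zero
    refine (Polynomial.rootSet_finite (addPoly p r a 0) (AlgebraicClosure K)).subset ?_
    intro z hz
    rw [Polynomial.mem_rootSet]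
    refine ⟨h1, ?_⟩
    rw [aeval_addPoly, map_zero, sub_zero]
    exact hz
  have hmem : ∀ (b : K) (σ : AlgebraicClosure K ≃ₐ[K] AlgebraicClosure K),
      σ (y b) - y b ∈ {z : AlgebraicClosure K | B z = 0} := by
    intro b σ
    show B (σ (y b) - y b) = 0
    rw [map_sub, hBσ]
    have := hy b
    rw [show B (y b) = algebraMap K (AlgebraicClosure K) b from this, AlgEquiv.commutes, sub_self]
  have hfinS : Finite S := hSfin
  have hfink : Finite {z : AlgebraicClosure K | B z = 0} := hker
  let Ψ : K → (S → {z : AlgebraicClosure K | B z = 0}) := fun b σ => ⟨σ.1 (y b) - y b, hmem b σ.1⟩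
  have hΨ : ∀ b b' : K, Ψ b = Ψ b' → b - b' ∈ LinearMap.range ((addMap p r a).toZModLinearMap p) := by
    intro b b' h
    have h1 : ∀ σ ∈ S, σ (y b - y b') = y b - y b' := by
      intro σ hσ
      have h2 := congrArg Subtype.val (congrFun h ⟨σ, hσ⟩)
      have h3 : σ (y b) - y b = σ (y b') - y b' := h2
      rw [map_sub]
      linear_combination h3
    have h2 := fixed_of_dense S hS _ h1
    have hsep : IsSeparable K (y b - y b') := by
      have h3 : aeval (y b - y b') (addPoly p r a (b - b')) = 0 := by
        rw [aeval_addPoly]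
        have h4 : B (y b - y b') = algebraMap K (AlgebraicClosure K) (b - b') := by
          rw [map_sub, map_sub]
          exact congrArg₂ _ (hy b) (hy b')
        rw [show addMap p r (fun j => algebraMap K (AlgebraicClosure K) (a j)) (y b - y b') =
          algebraMap K (AlgebraicClosure K) (b - b') from h4, sub_self]
      exact (separable_addPoly p r a ha (b - b')).of_dvd (minpoly.dvd K _ h3)
    obtain ⟨c, hc⟩ := mem_of_fixed _ hsep h2
    refine ⟨c, ?_⟩
    apply (algebraMap K (AlgebraicClosure K)).injective
    have h4 : B (y b - y b') = algebraMap K (AlgebraicClosure K) (b - b') := by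
      rw [map_sub, map_sub]
      exact congrArg₂ _ (hy b) (hy b')
    rw [← h4, ← hc, hBK]
    rfl
  refine Finite.of_injective (fun q : K ⧸ LinearMap.range ((addMap p r a).toZModLinearMap p) =>
    Ψ q.out) ?_
  intro q q' hqq
  have h5 := hΨ _ _ hqq
  rw [← Submodule.Quotient.mk_eq_zero, Submodule.Quotient.mk_sub, sub_eq_zero] at h5
  rwa [Submodule.Quotient.mk_out, Submodule.Quotient.mk_out] at h5

end Pool.H47.Tower
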